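import Pool.Agent.Lib.MP_361a6f_ag.FL.CV.Defs
import Pool.Agent.Lib.MP_361a6f_ag.FL.Ge
import Pool.Agent.Lib.MP_361a6f_ag.FL.AtRow
import Pool.Agent.Lib.MP_361a6f_ag.FL.B.HrPsi
import Pool.Agent.Lib.MP_361a6f_ag.FL.GJ

/-!
# Products of abelian varieties and curves, row CC0: the pieces of degree zero and two
-/

open CategoryTheory AlgebraicGeometry MonoidalCategory CartesianMonoidalCategory

universe u v w w'

set_option autoImplicit false
set_option linter.unusedSectionVars false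

namespace Pool.Agent.Lib.MP_361a6f_ag.FL.CV

open Pool.Agent.Lib.MP_361a6f_ag.H3 Pool.Agent.Lib.MP_361a6f_ag.SQ
  Pool.Agent.Lib.MP_361a6f_ag.PP

namespace CC0

section one

variable {k : Type u} [Field k] {W : CohomologyData.{u, 0, w} k ℂ} {𝒱 : VarietyClass k}
  (hW : IsWeilCohomology W 𝒱) {X : Sch k} {n : ℕ} (hX : 𝒱.mem X n) {ξ : W.coh X}
  (hξ : PositiveDivisor W X n ξ)

include hW hX hξ

/-- `ψ` is positive on the powers of the polarisation -/
theorem psi_pow {Lam : Module.End ℂ (W.coh X)} (D : LamData W X n ξ Lam) {s : ℕ} (hs : s ≤ n) :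
    ∃ r : ℝ, 0 < r ∧ psi W X ξ Lam D.slm.internal (ξ ^ s) (ξ ^ s) = (r : ℂ) := by
  obtain ⟨q, hq, h⟩ := hξ.2
  have h0 : W.tr X (ξ ^ n) = (q : ℂ) := h
  obtain ⟨c, hc, h1⟩ := HrPsi.star_str D.slm (i := 0) (v := (1 : W.coh X)) (Nat.zero_le n)
    (hW.one_gr hX) (D.slm.Λ_low 0 1 (by norm_num) (hW.one_gr hX)) s (by omega)
  have h2 : ∀ t : ℕ, ((Lop W X ξ) ^ t) (1 : W.coh X) = ξ ^ t := by
    intro t
    rw [Lop, LinearMap.pow_mulLeft, LinearMap.mulLeft_apply, mul_one]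
  rw [h2, h2] at h1
  have h3 : PP.sgn 0 = 1 := by simp [PP.sgn]
  refine ⟨(c : ℝ) * (q : ℝ), mul_pos (by exact_mod_cast hc) (by exact_mod_cast hq), ?_⟩
  rw [psi, h1, mul_smul_comm, ← pow_add, map_smul, h3, one_mul,
    show s + (n - 0 - s) = n by omega, h0, smul_eq_mul]
  push_cast
  rfl

/-- on a connected curve the classes of degree zero and two are multiples of the powers of the
polarisation -/
theorem line (hn : n = 1) (hc : ∀ x, W.Deg X 0 x → ∃ c, x = W.scal c 1) {s : ℕ} (hs : s ≤ 1)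
    {x : W.coh X} (hx : x ∈ W.gr X (2 * s)) : ∃ c : ℂ, x = c • ξ ^ s := by
  obtain rfl | rfl : s = 0 ∨ s = 1 := by omega
  · rw [pow_zero]
    exact hc x hx
  · subst hn
    obtain ⟨q, hq, h⟩ := hξ.2
    have h0 : W.tr X (ξ ^ 1) = (q : ℂ) := h
    rw [pow_one] at h0 ⊢
    have hq0 : (q : ℂ) ≠ 0 := by exact_mod_cast hq.ne'
    have hξ2 : ξ ∈ W.gr X (2 * 1) := hW.alg_gr hX hξ.1
    refine ⟨W.tr X x / q, ?_⟩
    have hy : x - (W.tr X x / q) • ξ ∈ W.gr X (2 * 1) :=
      Submodule.sub_mem _ hx (Submodule.smul_mem _ _ hξ2)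
    have hy0 : W.tr X (x - (W.tr X x / q) • ξ) = 0 := by
      rw [map_sub, map_smul, h0, smul_eq_mul, div_mul_cancel₀ _ hq0, sub_self]
    have h3 : x - (W.tr X x / q) • ξ = 0 := by
      refine hW.poincare.duality hX _ fun z => ?_
      refine hW.hom_induction hX (P := fun z => W.tr X ((x - (W.tr X x / q) • ξ) * z) = 0) z
        ?_ ?_ ?_
      · intro i z hz
        rcases Nat.eq_zero_or_pos i with rfl | hi
        · obtain ⟨c, rfl⟩ := hc z hz
          change W.tr X ((x - (W.tr X x / q) • ξ) * (c • (1 : W.coh X))) = 0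
          rw [mul_smul_comm, mul_one, map_smul, hy0, smul_zero]
        · exact hW.tr_gr hX (hW.mul_gr hX hy hz) (by omega)
      · rw [mul_zero, map_zero]
      · intro a b ha hb
        rw [mul_add, map_add, ha, hb, add_zero]
    exact sub_eq_zero.1 h3

end one

section mat

variable {k : Type u} [Field k] {m : ℕ} {W : CohomologyData.{u, 0, w} k ℂ}
  {𝒱 : VarietyClass k} (H : Host W 𝒱 m)

theorem leaf_apply (a : Fin m) (V : W.coh (H.X a)) (x : H.I) :
    H.tc (.leaf a) V (fun _ => x)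
      = H.D.s x * psi W (H.X a) (H.ξ a) (H.Lam a) (H.lam a).slm.internal V
        (H.e a (H.D.τ x)) := by
  have h1 : sg H.D (fun _ : Fin 1 => x) = H.D.s x := by
    simp [sg]
  have h2 := H.tc_apply (.leaf a) V (fun _ => x)
  refine h2.trans ?_
  exact congrArg (· * psi W (H.X a) (H.ξ a) (H.Lam a) (H.lam a).slm.internal V
        (H.e a (H.D.τ x))) h1

theorem leaf_typ (ge : H.GeFacts) (a : Fin m) {V : W.coh (H.X a)} {d : ℕ}
    (hV : V ∈ W.gr (H.X a) d) {x : H.I} (h : H.tc (.leaf a) V (fun _ => x) ≠ 0) :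
    H.D.typ x = (a, d) := by
  have h1 : (H.D.typ x).1 = a := by
    by_contra hne
    exact h (ge.tc_off (.leaf a) V (fun _ => x) ⟨(0 : Fin 1), hne⟩)
  have h2 : (H.D.typ x).2 = d := by
    by_contra hne
    refine h (GJ.tc_gr H ge staB (.leaf a) hV (fun _ => x) ?_)
    have : ∑ l : Fin 1, (H.D.typ x).2 = (H.D.typ x).2 := Fin.sum_univ_one _
    exact fun h => hne (this.symm.trans h)
  exact Prod.ext h1 h2

/-- `ψ` in coordinates on one factor -/
theorem leaf_psi (ge : H.GeFacts) (a : Fin m) (U : W.coh (H.X a)) :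
    ∑ x, H.tc (.leaf a) U (fun _ => x) * H.D.s x * H.tc (.leaf a) U (fun _ => H.D.τ x)
      = psi W (H.X a) (H.ξ a) (H.Lam a) (H.lam a).slm.internal U U := by
  have h1 := ge.psi_tc (.leaf a) U U
  have h2 : H.psiP (.leaf a) U U
      = psi W (H.X a) (H.ξ a) (H.Lam a) (H.lam a).slm.internal U U := rfl
  rw [← h2, ← h1]
  unfold psiT
  refine (Fintype.sum_equiv (Equiv.funUnique (Fin 1) H.I) _ _ fun w => ?_).symm
  have h3 : w = fun _ => w 0 := by
    funext i
    rw [Subsingleton.elim i 0]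
  have h4 : sg H.D w = H.D.s (w 0) := by
    simp [sg]
  have h5 : (Equiv.funUnique (Fin 1) H.I) w = w 0 := rfl
  have h6 : H.D.τ ∘ w = fun _ => H.D.τ (w 0) := by
    rw [h3]
    rfl
  have h7 : H.tc (.leaf a) U w = H.tc (.leaf a) U (fun _ => w 0) :=
    congrArg (H.tc (.leaf a) U) h3
  have h8 : H.tc (.leaf a) U (H.D.τ ∘ w) = H.tc (.leaf a) U (fun _ => H.D.τ (w 0)) :=
    congrArg (H.tc (.leaf a) U) h6
  have h9 : sg H.D w * (H.tc (.leaf a) U w * H.tc (.leaf a) U (H.D.τ ∘ w))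
      = H.D.s (w 0) * (H.tc (.leaf a) U (fun _ => w 0) *
        H.tc (.leaf a) U (fun _ => H.D.τ (w 0))) := by
    rw [h4]
    exact congrArg (H.D.s (w 0) * ·) (congrArg₂ (· * ·) h7 h8)
  refine h9.trans ?_
  change _ = H.tc (.leaf a) U (fun _ => w 0) * H.D.s (w 0) *
    H.tc (.leaf a) U (fun _ => H.D.τ (w 0))
  ring

/-- the rank one operator of two classes on two factors -/
theorem opM_outer (o a : Fin m) (U : W.coh (H.X o)) (V : W.coh (H.X a)) (x i : H.I) :
    E.opM H.D (outer (p := 1) (q := 1) (H.tc (.leaf o) U) (H.tc (.leaf a) V)) x i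
      = H.tc (.leaf o) U (fun _ => x) * (H.tc (.leaf a) V (fun _ => H.D.τ i) * H.D.s i) := by
  have h1 : (fun l : Fin 1 => (![x, H.D.τ i] : Fin 2 → H.I) (Fin.castAdd 1 l)) = fun _ => x := by
    funext l
    rw [Subsingleton.elim l 0]
    rfl
  have h2 : (fun l : Fin 1 => (![x, H.D.τ i] : Fin 2 → H.I) (Fin.natAdd 1 l))
      = fun _ => H.D.τ i := by
    funext l
    rw [Subsingleton.elim l 0]
    rfl
  have h3 : outer (p := 1) (q := 1) (H.tc (.leaf o) U) (H.tc (.leaf a) V) ![x, H.D.τ i]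
      = H.tc (.leaf o) U (fun _ => x) * H.tc (.leaf a) V (fun _ => H.D.τ i) :=
    congrArg₂ (· * ·) (congrArg (H.tc (.leaf o) U) h1) (congrArg (H.tc (.leaf a) V) h2)
  rw [← mul_assoc, ← h3]
  rfl

theorem mem_at (at_ : H.AtFacts) {o a : Fin m} {U : W.coh (H.X o)} {V : W.coh (H.X a)}
    (hU : U ∈ tot W (H.X o)) (hV : V ∈ tot W (H.X a)) :
    outer (p := 1) (q := 1) (H.tc (.leaf o) U) (H.tc (.leaf a) V) ∈ H.At 2 := by
  have h : ∀ (b : Fin m) (Z : W.coh (H.X b)), Z ∈ tot W (H.X b) → H.tc (.leaf b) Z ∈ H.At 1 :=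
    fun b Z hZ => AddSubgroup.subset_closure (Or.inr ⟨.leaf b, rfl, Z, hZ, rfl⟩)
  exact at_.outer 1 1 _ (h o U hU) _ (h a V hV)

/-- the isometry on one letter, from two lines -/
theorem iso_of (ge : H.GeFacts) (at_ : H.AtFacts) {o a : Fin m} {d : ℕ} (hd : Even d)
    {U : W.coh (H.X o)} {V : W.coh (H.X a)} (hU : U ∈ tot W (H.X o)) (hV : V ∈ tot W (H.X a))
    (hUg : U ∈ W.gr (H.X o) d) (hVg : V ∈ W.gr (H.X a) d)
    {ro ra : ℝ} (hro : 0 < ro) (hra : 0 < ra)
    (hUU : psi W (H.X o) (H.ξ o) (H.Lam o) (H.lam o).slm.internal U U = (ro : ℂ))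
    (hVV : psi W (H.X a) (H.ξ a) (H.Lam a) (H.lam a).slm.internal V V = (ra : ℂ))
    (hl : ∀ x ∈ W.gr (H.X a) d, ∃ c : ℂ, x = c • V) :
    ∃ T : Matrix H.I H.I ℂ, T ∈ Submodule.span ℝ {M | ∃ z, z ∈ H.At 2 ∧ M = E.opM H.D z} ∧
      (∀ x i, T x i ≠ 0 → H.D.typ x = (o, d) ∧ H.D.typ i = (a, d)) ∧
      ∀ i j, H.D.typ i = (a, d) → H.D.typ j = (a, d) →
        (T.transpose * Psi H.D * T) i j = Psi H.D i j := by
  set c : ℝ := (Real.sqrt (ro * ra))⁻¹ with hc
  have hcc : (c : ℂ) * c * ro * ra = 1 := by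
    have h1 : c * c * (ro * ra) = 1 := by
      have h2 : Real.sqrt (ro * ra) * Real.sqrt (ro * ra) = ro * ra :=
        Real.mul_self_sqrt (by positivity)
      have h3 : Real.sqrt (ro * ra) ≠ 0 := by positivity
      rw [hc]
      nth_rewrite 3 [← h2]
      field_simp
    rw [mul_assoc]
    exact_mod_cast h1
  set z := outer (p := 1) (q := 1) (H.tc (.leaf o) U) (H.tc (.leaf a) V) with hz
  have hT : ∀ x i, (c • E.opM H.D z) x i
      = c * (H.tc (.leaf o) U (fun _ => x) * (H.tc (.leaf a) V (fun _ => H.D.τ i) * H.D.s i)) := by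
    intro x i
    rw [Matrix.smul_apply, Complex.real_smul, hz, opM_outer]
  refine ⟨c • E.opM H.D z, Submodule.smul_mem _ _ (Submodule.subset_span
    ⟨z, mem_at H at_ hU hV, rfl⟩), ?_, ?_⟩
  · intro x i h
    rw [hT] at h
    have h1 := left_ne_zero_of_mul (right_ne_zero_of_mul h)
    have h2 := left_ne_zero_of_mul (right_ne_zero_of_mul (right_ne_zero_of_mul h))
    refine ⟨leaf_typ H ge o hUg h1, ?_⟩
    rw [← H.D.typ_τ]
    exact leaf_typ H ge a hVg h2
  · intro i j hi hj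
    have hev : ∀ i, H.D.typ i = (a, d) → H.D.τ i = i ∧ H.D.s i = 1 := by
      intro i hi
      refine H.D.even_τ i ?_
      rw [hi, H.odd_iff]
      exact fun h => (Nat.not_odd_iff_even.2 hd) h
    have hv : ∀ i, H.D.typ i = (a, d) → H.tc (.leaf a) V (fun _ => H.D.τ i) * H.D.s i
        = psi W (H.X a) (H.ξ a) (H.Lam a) (H.lam a).slm.internal V (H.e a i) := by
      intro i hi
      rw [leaf_apply, (hev i hi).1, (hev i hi).2, one_mul, mul_one, (hev i hi).1]
    have hli : ∀ i, H.D.typ i = (a, d) → ∃ c : ℂ, H.e a i = c • V := by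
      intro i hi
      apply hl
      have := H.e_gr a i
      rwa [hi] at this
    obtain ⟨ci, hci⟩ := hli i hi
    obtain ⟨cj, hcj⟩ := hli j hj
    have hps := H.e_psi a i j (by rw [hi]) (by rw [hj])
    have hsm : ∀ c c' : ℂ, psi W (H.X a) (H.ξ a) (H.Lam a) (H.lam a).slm.internal (c • V) (c' • V)
        = c * c' * ra := by
      intro c c'
      rw [← hVV, psi, psi, map_smul, smul_mul_assoc, mul_smul_comm, map_smul, map_smul,
        smul_eq_mul, smul_eq_mul]
      ring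
    rw [hci, hcj, hsm] at hps
    have hv1 : ∀ c' : ℂ, psi W (H.X a) (H.ξ a) (H.Lam a) (H.lam a).slm.internal V (c' • V)
        = c' * ra := by
      intro c'
      have := hsm 1 c'
      rwa [one_smul, one_mul] at this
    rw [Matrix.mul_assoc, Matrix.mul_apply]
    have h1 : ∀ x, (Psi H.D * (c • E.opM H.D z)) x j
        = H.D.s x * (c • E.opM H.D z) (H.D.τ x) j := by
      intro x
      rw [Matrix.mul_apply, Finset.sum_eq_single (H.D.τ x)]
      · simp [Psi]
      · intro y _ hy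
        simp [Psi, hy]
      · intro h
        exact absurd (Finset.mem_univ _) h
    have h2 : ∀ x, (c • E.opM H.D z).transpose i x * (Psi H.D * (c • E.opM H.D z)) x j
        = (c * c * (ci * ra) * (cj * ra)) * (H.tc (.leaf o) U (fun _ => x) * H.D.s x *
          H.tc (.leaf o) U (fun _ => H.D.τ x)) := by
      intro x
      rw [h1, Matrix.transpose_apply, hT, hT, hv i hi, hv j hj, hci, hcj, hv1, hv1]
      ring
    rw [Finset.sum_congr rfl fun x _ => h2 x, ← Finset.mul_sum, leaf_psi H ge, hUU]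
    have h3 : Psi H.D i j = if j = H.D.τ i then H.D.s i else 0 := rfl
    rw [h3, ← hps]
    linear_combination (ci * cj * ra) * hcc

end mat

end CC0

/-- Row CC0. -/
theorem cc0 : CC0Statement.{u, w} := by
  intro k _ m W 𝒱 H o F a ha d hd
  obtain ⟨s, hs, rfl⟩ : ∃ s, s ≤ 1 ∧ d = 2 * s := by
    rcases hd with rfl | rfl
    · exact ⟨0, by norm_num, rfl⟩
    · exact ⟨1, le_rfl, rfl⟩
  obtain ⟨ro, hro, hUU⟩ := CC0.psi_pow H.hW (H.mem o) (F.div o) (H.lam o) (s := s)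
    (hs.trans F.pos)
  obtain ⟨ra, hra, hVV⟩ := CC0.psi_pow H.hW (H.mem a) (F.div a) (H.lam a) (s := s)
    (hs.trans (F.one a ha).ge)
  have halg : ∀ b, H.ξ b ^ s ∈ W.alg (H.X b) s := fun b =>
    H.hW.pow_alg (H.mem b) (F.div b).1 s
  exact CC0.iso_of H (ge H) (at_ H) (even_two_mul s) (alg_le_tot H.hW _ _ (halg o))
    (alg_le_tot H.hW _ _ (halg a)) (H.hW.alg_gr (H.mem o) (halg o))
    (H.hW.alg_gr (H.mem a) (halg a)) hro hra hUU hVV
    fun x hx => CC0.line H.hW (H.mem a) (F.div a) (F.one a ha) (F.conn a) hs hx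

end Pool.Agent.Lib.MP_361a6f_ag.FL.CV
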