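import Pool.Agent.Lib.MP_361a6f_ag.FL.CV.Defs
import Pool.Agent.Lib.MP_361a6f_ag.FL.E.Tate
import Pool.Agent.Lib.MP_361a6f_ag.FL.B.PosL
import Pool.Agent.Lib.MP_361a6f_ag.FL.B.HrO

/-!
# Products of abelian varieties and curves: the piece of degree one (row CC1)
-/

open CategoryTheory AlgebraicGeometry MonoidalCategory CartesianMonoidalCategory

universe u v w w'

set_option autoImplicit false
set_option linter.unusedSectionVars false

namespace Pool.Agent.Lib.MP_361a6f_ag.FL.CV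

open Pool.Agent.Lib.MP_361a6f_ag.H3 Pool.Agent.Lib.MP_361a6f_ag.SQ
  Pool.Agent.Lib.MP_361a6f_ag.PP Pool.Agent.Lib.MP_361a6f_ag.FL.PTG
open Pool.Agent.Lib.MP_361a6f_ag.FL.E (Psi_apply)

noncomputable section

variable {k : Type u} [Field k] {m : ℕ} {W : CohomologyData.{u, 0, w} k ℂ} {𝒱 : VarietyClass k}
  (H : Host W 𝒱 m)

theorem s_sq' (x : H.I) : H.D.s x * H.D.s x = 1 := by
  rcases H.D.s_val x with h | h <;> rw [h] <;> norm_num

/-- the coordinate of a class of a factor at a letter -/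
def crd (b : Fin m) (x : H.I) : W.coh (H.X b) →ₗ[ℂ] ℂ where
  toFun v := (H.tc (.leaf b) v : Ten H.I 1) (fun _ => x)
  map_add' v v' := congrFun (map_add (H.tc (.leaf b)) v v') _
  map_smul' r v := congrFun (map_smul (H.tc (.leaf b)) r v) _

theorem cd_def (b : Fin m) (x : H.I) (v : W.coh (H.X b)) :
    crd H b x v = (H.tc (.leaf b) v : Ten H.I 1) (fun _ => x) := rfl

theorem cd_psi (b : Fin m) (x : H.I) (v : W.coh (H.X b)) :
    crd H b x v = H.D.s x * psi W (H.X b) (H.ξ b) (H.Lam b) (H.lam b).slm.internal v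
      (H.e b (H.D.τ x)) :=
  congrArg (· * psi W (H.X b) (H.ξ b) (H.Lam b) (H.lam b).slm.internal v
      (H.e b (H.D.τ x))) (Fin.prod_univ_one _ : sg H.D (fun _ : Fin 1 => x) = H.D.s x)

theorem cd_exp (b : Fin m) (v : W.coh (H.X b)) : v = ∑ x, crd H b x v • H.e b x := by
  have h := (ge H).expand (.leaf b) v
  refine h.trans ?_
  exact (Equiv.funUnique (Fin 1) H.I).symm.sum_comp
    (fun w : Fin 1 → H.I => (H.tc (.leaf b) v : Ten H.I 1) w • H.e b (w 0)) |>.symm

theorem cd_off (b : Fin m) {x : H.I} (hx : (H.D.typ x).1 ≠ b) (v : W.coh (H.X b)) :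
    crd H b x v = 0 :=
  (ge H).tc_off (.leaf b) v (fun _ => x) ⟨⟨0, Nat.one_pos⟩, hx⟩

theorem cd_gr (b : Fin m) {x : H.I} {i : ℕ} (hx : (H.D.typ x).2 ≠ i) {v : W.coh (H.X b)}
    (hv : v ∈ W.gr (H.X b) i) : crd H b x v = 0 := by
  refine GJ.tc_gr H (ge H) staB (.leaf b) hv (fun _ => x) ?_
  intro h
  exact hx ((Fin.sum_univ_one fun _ : Fin 1 => (H.D.typ x).2).symm.trans h)

theorem cd_e (b : Fin m) (x y : H.I) :
    crd H b x (H.e b y) = if (H.D.typ y).1 = b ∧ x = y then 1 else 0 :=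
  GC.tc_e H b y (fun _ => x)

theorem cd_one (b : Fin m) {x : H.I} (hx : H.D.typ x ≠ (b, 1)) {v : W.coh (H.X b)}
    (hv : v ∈ W.gr (H.X b) 1) : crd H b x v = 0 := by
  by_cases h : (H.D.typ x).1 = b
  · exact cd_gr H b (fun h' => hx (Prod.ext h h')) hv
  · exact cd_off H b h v

theorem e_gr1 (b : Fin m) {x : H.I} (hx : H.D.typ x = (b, 1)) : H.e b x ∈ W.gr (H.X b) 1 := by
  have h := H.e_gr b x
  rwa [hx] at h

section cls

variable {H} {o a : Fin m} (f : H.X a ⟶ H.X o)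

/-- the matrix of `f^*` on the letters of degree one -/
def Cm (f : H.X a ⟶ H.X o) (b x : H.I) : ℂ :=
  if H.D.typ x = (o, 1) then crd H a b (W.pull f (H.e o x)) else 0

theorem Cm_ne {b x : H.I} (h : Cm f b x ≠ 0) : H.D.typ x = (o, 1) ∧ H.D.typ b = (a, 1) := by
  have hx : H.D.typ x = (o, 1) := by
    by_contra hx
    exact h (if_neg hx)
  refine ⟨hx, ?_⟩
  by_contra hb
  apply h
  rw [Cm, if_pos hx]
  exact cd_one H a hb (H.hW.pull_gr (H.mem a) (H.mem o) f (e_gr1 H o hx))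

/-- the tensor of the class `(f × 1)^* δ` -/
theorem exists_mem : ∃ u ∈ H.At 2, ∀ w : Fin 2 → H.I,
    u w = Cm f (w 0) (H.D.τ (w 1)) * H.D.s (H.D.τ (w 1)) := by
  have hXo := H.mem o
  have hXa := H.mem a
  let T2 : W.coh (H.X o ⊗ H.X o) →ₗ[ℂ] Ten H.I 2 := H.tc (.prod (.leaf o) (.leaf o))
  obtain ⟨δ, hδ, hδu⟩ : ∃ z : W.coh (H.X o ⊗ H.X o), z ∈ W.alg (H.X o ⊗ H.X o) 1 ∧
      T2 z = om H.D (o, 1) :=
    PosL.at_word H (gr ge H) (ge H) (.prod (.leaf o) (.leaf o))
      (fun _ => (o, 1)) (fun j => by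
        have : ∀ j : Fin 2, ((.prod (.leaf o) (.leaf o) : Prd m).lw j) = o := by
          intro j
          fin_cases j <;> rfl
        exact (this j).symm) 1
      (Fin.sum_univ_two (fun _ : Fin 2 => ((o, 1) : Fin m × ℕ).2)) ((at_ H).om (o, 1))
      (fun (w : Fin 2 → H.I) hw => by
        refine if_neg ?_
        rintro ⟨h1, h2⟩
        apply hw
        intro j
        have : ∀ j : Fin 2, H.D.typ ((w : Fin 2 → H.I) j) = (o, 1) := by
          intro j
          fin_cases j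
          · exact h1
          · show H.D.typ (w 1) = (o, 1)
            rw [h2, H.D.typ_τ]
            exact h1
        exact this j)
  let g : H.X a ⊗ H.X o ⟶ H.X o ⊗ H.X o := lift (fst (H.X a) (H.X o) ≫ f) (snd (H.X a) (H.X o))
  let δ' : W.coh (H.X a ⊗ H.X o) := W.pull g δ
  have hδ' : δ' ∈ W.alg (H.X a ⊗ H.X o) 1 :=
    H.hW.pull_alg (𝒱.prod hXa hXo) (𝒱.prod hXo hXo) g hδ
  let Tao : W.coh (H.X a ⊗ H.X o) →ₗ[ℂ] Ten H.I 2 := H.tc (.prod (.leaf a) (.leaf o))
  refine ⟨Tao δ', ?_, fun v => ?_⟩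
  · refine AddSubgroup.subset_closure (Or.inr ⟨.prod (.leaf a) (.leaf o), rfl, δ', ?_, rfl⟩)
    exact alg_le_tot H.hW _ _ hδ'
  -- the value
  have hexp : δ = ∑ w : Fin 2 → H.I, T2 δ w • (W.pull (fst (H.X o) (H.X o)) (H.e o (w 0)) *
      W.pull (snd (H.X o) (H.X o)) (H.e o (w 1))) :=
    (ge H).expand (.prod (.leaf o) (.leaf o)) δ
  have hδ2 : δ' = ∑ w : Fin 2 → H.I, om H.D (o, 1) w •
      (W.pull (fst (H.X a) (H.X o)) (W.pull f (H.e o (w 0))) *
        W.pull (snd (H.X a) (H.X o)) (H.e o (w 1))) := by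
    show W.pull g δ = _
    rw [hexp, map_sum]
    refine Finset.sum_congr rfl fun w _ => ?_
    rw [hδu, map_smul, map_mul, ← W.pull_comp, ← W.pull_comp, lift_fst, lift_snd, W.pull_comp]
  have hT : ∀ (y : W.coh (H.X a)) (x : W.coh (H.X o)) (v : Fin 2 → H.I),
      Tao (W.pull (fst (H.X a) (H.X o)) y * W.pull (snd (H.X a) (H.X o)) x) v
        = crd H a (v 0) y * crd H o (v 1) x := by
    intro y x v
    refine (congrFun ((ge H).tc_outer (.leaf a) (.leaf o) y x) v).trans ?_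
    show (H.tc (.leaf a) y : Ten H.I 1) (fun i => v (Fin.castAdd 1 i)) *
      (H.tc (.leaf o) x : Ten H.I 1) (fun i => v (Fin.natAdd 1 i)) = _
    have h8 : (fun i : Fin 1 => v (Fin.castAdd 1 i)) = fun _ => v 0 := by
      funext i
      rw [Subsingleton.elim i 0]
      rfl
    have h9 : (fun i : Fin 1 => v (Fin.natAdd 1 i)) = fun _ => v 1 := by
      funext i
      rw [Subsingleton.elim i 0]
      rfl
    exact congrArg₂ (· * ·) (congrArg (fun t => (H.tc (.leaf a) y : Ten H.I 1) t) h8)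
      (congrArg (fun t => (H.tc (.leaf o) x : Ten H.I 1) t) h9)
  rw [hδ2, map_sum, Finset.sum_apply, Finset.sum_eq_single ![H.D.τ (v 1), v 1]]
  · rw [map_smul, Pi.smul_apply, smul_eq_mul, hT, cd_e, Cm, om]
    by_cases h1 : H.D.typ (H.D.τ (v 1)) = (o, 1)
    · have h2 : H.D.typ (![H.D.τ (v 1), v 1] 0) = (o, 1) ∧
          ![H.D.τ (v 1), v 1] 1 = H.D.τ (![H.D.τ (v 1), v 1] 0) :=
        ⟨h1, (H.D.τ_τ _).symm⟩
      have h3 : (H.D.typ (![H.D.τ (v 1), v 1] 1)).1 = o ∧ v 1 = ![H.D.τ (v 1), v 1] 1 := by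
        refine ⟨?_, rfl⟩
        show (H.D.typ (v 1)).1 = o
        rw [← H.D.typ_τ, h1]
      rw [if_pos h2, if_pos h3, if_pos h1]
      show H.D.s (H.D.τ (v 1)) * (crd H a (v 0) (W.pull f (H.e o (H.D.τ (v 1)))) * 1) = _
      ring
    · have h2 : ¬ (H.D.typ (![H.D.τ (v 1), v 1] 0) = (o, 1) ∧
          ![H.D.τ (v 1), v 1] 1 = H.D.τ (![H.D.τ (v 1), v 1] 0)) := fun h => h1 h.1
      rw [if_neg h2, if_neg h1, zero_mul, zero_mul]
  · intro w _ hw
    rw [map_smul, Pi.smul_apply, smul_eq_mul, hT, cd_e]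
    by_cases h1 : (H.D.typ (w 1)).1 = o ∧ v 1 = w 1
    · have h2 : om H.D (o, 1) w = 0 := by
        rw [om, if_neg]
        rintro ⟨-, h3⟩
        apply hw
        funext i
        fin_cases i
        · show w 0 = H.D.τ (v 1)
          rw [h1.2, h3, H.D.τ_τ]
        · exact h1.2.symm
      rw [h2, zero_mul]
    · rw [if_neg h1, mul_zero, mul_zero]
  · intro h
    exact absurd (Finset.mem_univ _) h

end cls

/-- the relation given by `f^* J = r` -/
theorem rel {o a : Fin m} (f : H.X a ⟶ H.X o) {r : ℚ} (hdo : PositiveDivisor W (H.X o) (H.n o)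
      (H.ξ o)) (hda : PositiveDivisor W (H.X a) (H.n a) (H.ξ a)) (hn : 0 < H.n o)
    (hna : H.n a = 1)
    (hjac : ∀ v, W.Deg (H.X a) 1 v → ∃ x, W.Deg (H.X o) 1 x ∧ W.pb f x = W.scal (r : ℂ) v ∧
      ∀ z, W.Deg (H.X o) 1 z →
        W.Tr (W.cup (H.ξ o ^ (H.n o - 1)) (W.cup x z)) = W.Tr (W.cup v (W.pb f z)))
    (b c : H.I) (hb : H.D.typ b = (a, 1)) :
    ∑ x, H.D.s x * H.D.s b * Cm f (H.D.τ b) (H.D.τ x) * Cm f c x
      = ((H.n o - 1).factorial : ℂ) * r * if c = b then 1 else 0 := by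
  obtain ⟨xb, hxb, hfx, htr⟩ := hjac _ (e_gr1 H a hb)
  have hfac : ((H.n o - 1).factorial : ℂ) ≠ 0 := by
    exact_mod_cast (H.n o - 1).factorial_ne_zero
  -- the coordinates of `xb`
  have h1 : ∀ x, H.D.s x * H.D.s b * Cm f (H.D.τ b) (H.D.τ x)
      = ((H.n o - 1).factorial : ℂ) * crd H o x xb := by
    intro x
    by_cases hx : H.D.typ x = (o, 1)
    · have hτx : H.D.typ (H.D.τ x) = (o, 1) := by rw [H.D.typ_τ, hx]
      have hy := e_gr1 H o hτx
      have h2 := htr _ hy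
      have h3 : W.tr (H.X o) (H.ξ o ^ (H.n o - 1) * (xb * H.e o (H.D.τ x)))
          = W.tr (H.X a) (H.e a b * W.pull f (H.e o (H.D.τ x))) := h2
      have h4 := psi_one H.hW (H.mem o) hdo (H.lam o) hn xb hy
      have hfy := H.hW.pull_gr (H.mem a) (H.mem o) f hy
      have h5 := psi_one H.hW (H.mem a) hda (H.lam a) hna.ge (H.e a b) hfy
      have h6 : ((H.n a - 1).factorial : ℂ)⁻¹ * -W.tr (H.X a)
          (H.ξ a ^ (H.n a - 1) * (H.e a b * W.pull f (H.e o (H.D.τ x))))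
          = -W.tr (H.X a) (H.e a b * W.pull f (H.e o (H.D.τ x))) := by
        rw [hna, Nat.sub_self, pow_zero, one_mul, Nat.factorial_zero, Nat.cast_one, inv_one,
          one_mul]
      rw [h6] at h5
      -- the value on the curve
      have h7 : psi W (H.X a) (H.ξ a) (H.Lam a) (H.lam a).slm.internal (H.e a b)
          (W.pull f (H.e o (H.D.τ x))) = H.D.s b * Cm f (H.D.τ b) (H.D.τ x) := by
        conv_lhs => rw [cd_exp H a (W.pull f (H.e o (H.D.τ x)))]
        rw [psi, map_sum, Finset.mul_sum, map_sum, Finset.sum_eq_single (H.D.τ b)]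
        · rw [map_smul, mul_smul_comm, map_smul, smul_eq_mul]
          have h8 := H.e_psi a b (H.D.τ b) (by rw [hb]) (by rw [H.D.typ_τ, hb])
          rw [if_pos rfl, psi] at h8
          rw [h8, Cm, if_pos hτx]
          ring
        · intro y _ hy'
          rw [map_smul, mul_smul_comm, map_smul, smul_eq_mul]
          by_cases hya : (H.D.typ y).1 = a
          · have h8 := H.e_psi a b y (by rw [hb]) hya
            rw [if_neg hy', psi] at h8
            rw [h8, mul_zero]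
          · rw [cd_off H a hya, zero_mul]
        · intro h
          exact absurd (Finset.mem_univ _) h
      rw [cd_psi, h4, h3]
      rw [h7] at h5
      have h9 : W.tr (H.X a) (H.e a b * W.pull f (H.e o (H.D.τ x)))
          = -(H.D.s b * Cm f (H.D.τ b) (H.D.τ x)) := by
        rw [h5, neg_neg]
      rw [h9]
      field_simp
    · rw [cd_one H o hx hxb, mul_zero, Cm, if_neg (by rw [H.D.typ_τ]; exact hx), mul_zero]
  -- `f^* xb = r e_b`
  have h2 : ∑ x, crd H o x xb * Cm f c x = r * if c = b then 1 else 0 := by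
    have h3 : crd H a c (W.pull f xb) = r * if c = b then 1 else 0 := by
      have h4 : W.pull f xb = (r : ℂ) • H.e a b := hfx
      rw [h4, map_smul, smul_eq_mul, cd_e]
      congr 1
      by_cases hc : c = b
      · rw [if_pos hc, if_pos ⟨by rw [hb], hc⟩]
      · rw [if_neg hc, if_neg fun h => hc h.2]
    rw [← h3]
    conv_rhs => rw [cd_exp H o xb]
    rw [map_sum, map_sum]
    refine Finset.sum_congr rfl fun x _ => ?_
    rw [map_smul, map_smul, smul_eq_mul]
    by_cases hx : H.D.typ x = (o, 1)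
    · rw [Cm, if_pos hx]
    · rw [cd_one H o hx hxb, zero_mul, zero_mul]
  rw [mul_assoc, ← h2, Finset.mul_sum]
  refine Finset.sum_congr rfl fun x _ => ?_
  rw [h1]
  ring

/-- **Row CC1.** -/
theorem cc1 : CC1Statement.{u, w} := by
  intro k _ m W 𝒱 H o hF a ha
  obtain ⟨f, r, hr, hjac⟩ := (hF.curve a ha).jac
  obtain ⟨u, hu, hu'⟩ := exists_mem (H := H) (o := o) (a := a) f
  have hS := aSys_at (at_ H)
  have hsw : permT (Equiv.swap 0 1) u ∈ H.At 2 := hS.perm 2 _ u hu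
  let T0 : Matrix H.I H.I ℂ := E.opM H.D (permT (Equiv.swap 0 1) u)
  have hT0 : ∀ i j, T0 i j = Cm f (H.D.τ j) (H.D.τ i) * H.D.s (H.D.τ i) * H.D.s j := by
    intro i j
    show (permT (Equiv.swap 0 1) u) ![i, H.D.τ j] * H.D.s j = _
    have h1 : (permT (Equiv.swap 0 1) u) ![i, H.D.τ j] = u ![H.D.τ j, i] := by
      rw [permT]
      congr 1
      funext l
      fin_cases l <;> rfl
    rw [h1, hu']
    rfl
  have hρ : (0 : ℝ) < ((H.n o - 1).factorial : ℝ) * (r : ℝ) := by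
    have h1 : (0 : ℝ) < ((H.n o - 1).factorial : ℝ) := by
      exact_mod_cast (H.n o - 1).factorial_pos
    have h2 : (0 : ℝ) < (r : ℝ) := by exact_mod_cast hr
    exact mul_pos h1 h2
  let κ : ℝ := (Real.sqrt (((H.n o - 1).factorial : ℝ) * (r : ℝ)))⁻¹
  have hκ : (κ : ℂ) * κ * (((H.n o - 1).factorial : ℂ) * (r : ℂ)) = 1 := by
    have h1 : κ * κ * (((H.n o - 1).factorial : ℝ) * (r : ℝ)) = 1 := by
      have h2 := Real.mul_self_sqrt hρ.le
      have h3 : Real.sqrt (((H.n o - 1).factorial : ℝ) * (r : ℝ)) ≠ 0 := (Real.sqrt_pos.2 hρ).ne'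
      have key : ∀ t ρ : ℝ, t * t = ρ → t ≠ 0 → t⁻¹ * t⁻¹ * ρ = 1 := by
        intro t ρ h ht
        rw [← h]
        field_simp
      exact key _ _ h2 h3
    have h4 := congrArg (fun x : ℝ => (x : ℂ)) h1
    push_cast at h4
    exact h4
  have hodd : ∀ i, (H.D.typ i).2 = 1 → H.D.s (H.D.τ i) = -H.D.s i := by
    intro i hi
    refine (H.D.odd_τ i ?_).2
    rw [H.odd_iff, hi]
    exact odd_one
  refine ⟨κ • T0, ?_, ?_, ?_⟩
  · exact Submodule.smul_mem _ _ (Submodule.subset_span ⟨_, hsw, rfl⟩)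
  · intro x i hxi
    have h1 : T0 x i ≠ 0 := fun h => hxi (by
      rw [Matrix.smul_apply, h, smul_zero])
    have h2 : Cm f (H.D.τ i) (H.D.τ x) ≠ 0 := fun h => h1 (by
      rw [hT0, h, zero_mul, zero_mul])
    have h3 := Cm_ne f h2
    rw [H.D.typ_τ, H.D.typ_τ] at h3
    exact h3
  · intro i j hi hj
    have hrel := rel H f (hF.div o) (hF.div a) hF.pos (hF.one a ha) hjac i (H.D.τ j) hi
    have h1 : ∀ x, ((κ • T0).transpose * Psi H.D) i x = κ * (T0 (H.D.τ x) i * H.D.s (H.D.τ x)) := by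
      intro x
      rw [Matrix.mul_apply, Finset.sum_eq_single (H.D.τ x)]
      · rw [Psi_apply, H.D.τ_τ, if_pos rfl, Matrix.transpose_apply, Matrix.smul_apply,
          Complex.real_smul]
        ring
      · intro b _ hb
        rw [Psi_apply, if_neg fun h => hb (by rw [h, H.D.τ_τ]), mul_zero]
      · intro h
        exact absurd (Finset.mem_univ _) h
    let τe : H.I ≃ H.I := ⟨H.D.τ, H.D.τ, H.D.τ_τ, H.D.τ_τ⟩
    have h2 : ∀ x, ((κ • T0).transpose * Psi H.D) i (τe x) * (κ • T0) (τe x) j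
        = -(κ * κ * H.D.s j) * (H.D.s x * H.D.s i * Cm f (H.D.τ i) (H.D.τ x) *
            Cm f (H.D.τ j) x) := by
      intro x
      show ((κ • T0).transpose * Psi H.D) i (H.D.τ x) * (κ • T0) (H.D.τ x) j = _
      rw [h1, Matrix.smul_apply, Complex.real_smul, hT0, hT0]
      simp only [H.D.τ_τ]
      by_cases hx : Cm f (H.D.τ j) x = 0
      · rw [hx]
        ring
      · have h3 : H.D.s (H.D.τ x) = -H.D.s x := hodd x (by rw [(Cm_ne f hx).1])
        rw [h3]
        linear_combination (-(κ : ℂ) * κ * Cm f (H.D.τ i) (H.D.τ x) * H.D.s x * H.D.s i *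
          Cm f (H.D.τ j) x * H.D.s j) * s_sq' H x
    rw [Matrix.mul_apply, ← τe.sum_comp, Finset.sum_congr rfl fun x _ => h2 x, ← Finset.mul_sum,
      hrel, Psi_apply]
    by_cases hij : j = H.D.τ i
    · rw [if_pos hij, if_pos (by rw [hij, H.D.τ_τ]), hij, hodd i (by rw [hi])]
      linear_combination (H.D.s i) * hκ
    · rw [if_neg hij, if_neg fun h => hij (by rw [← h, H.D.τ_τ]), mul_zero, mul_zero]

end

end Pool.Agent.Lib.MP_361a6f_ag.FL.CV
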