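import Pool.Agent.Lib.MP_361a6f_ag.FL.CV.Defs
import Pool.Agent.Lib.MP_361a6f_ag.FL.GJ
import Pool.Agent.Lib.MP_361a6f_ag.FL.GPos
import Pool.Agent.Lib.MP_361a6f_ag.FL.B.PosL

/-!
# Products of abelian varieties and curves, row CD: nonnegativity on all products
-/

open CategoryTheory AlgebraicGeometry MonoidalCategory CartesianMonoidalCategory

universe u v w w'

set_option autoImplicit false
set_option linter.unusedSectionVars false

namespace Pool.Agent.Lib.MP_361a6f_ag.FL.CV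

open Pool.Agent.Lib.MP_361a6f_ag.H3 Pool.Agent.Lib.MP_361a6f_ag.SQ
  Pool.Agent.Lib.MP_361a6f_ag.PP Pool.Agent.Lib.MP_361a6f_ag.FL.PTG

section cd

variable {k : Type u} [Field k] {m : ℕ} {W : CohomologyData.{u, 0, w} k ℂ} {𝒱 : VarietyClass k}
  (H : Host W 𝒱 m)

/-- the part of degree `2 i` of a sum of algebraic classes -/
theorem alg_cut (Q : Prd m) (i : ℕ) {z : W.coh (Q.obj H.X)} (hz : z ∈ tot W (Q.obj H.X)) :
    ∃ z' ∈ W.alg (Q.obj H.X) i, ∀ w, H.tc Q z' w =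
      if ∑ l, (H.D.typ (w l)).2 = 2 * i then H.tc Q z w else 0 := by
  refine tot_induction H.hW (P := fun z => ∃ z' ∈ W.alg (Q.obj H.X) i, ∀ w, H.tc Q z' w =
      if ∑ l, (H.D.typ (w l)).2 = 2 * i then H.tc Q z w else 0) hz ?_ ?_
  · intro l y hy
    by_cases hl : l = i
    · subst hl
      refine ⟨y, hy, fun w => ?_⟩
      split_ifs with h
      · rfl
      · exact GJ.tc_gr H (ge H) staB Q (H.hW.alg_gr (H.memP Q) hy) w h
    · refine ⟨0, zero_mem _, fun w => ?_⟩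
      rw [map_zero]
      split_ifs with h
      · exact (GJ.tc_gr H (ge H) staB Q (H.hW.alg_gr (H.memP Q) hy) w (by rw [h]; omega)).symm
      · rfl
  · rintro y y' ⟨z, hz, h⟩ ⟨z', hz', h'⟩
    refine ⟨z + z', add_mem hz hz', fun w => ?_⟩
    rw [map_add, map_add, Pi.add_apply, Pi.add_apply, h, h']
    split_ifs
    · rfl
    · exact add_zero _

open Classical in
/-- the part of an algebraic tensor that fits to `Q` and has degree `2 i` -/
theorem at_cut (Q : Prd m) (i : ℕ) {u : Ten H.I Q.size} (hu : u ∈ H.At Q.size) :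
    ∃ z ∈ W.alg (Q.obj H.X) i, ∀ w, H.tc Q z w =
      if ¬ H.Off Q w ∧ ∑ l, (H.D.typ (w l)).2 = 2 * i then u w else 0 := by
  obtain ⟨z, hz, h⟩ := PosL.at_fit H (gr ge H) (ge H) Q hu
  obtain ⟨z', hz', h'⟩ := alg_cut H Q i hz
  refine ⟨z', hz', fun w => ?_⟩
  rw [h', h]
  by_cases h1 : H.Off Q w <;> by_cases h2 : ∑ l, (H.D.typ (w l)).2 = 2 * i <;> simp [h1, h2]

open Classical in
/-- the same for the real span -/
theorem at_real (Q : Prd m) (i : ℕ) {u : Ten H.I Q.size}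
    (hu : u ∈ Submodule.span ℝ {u : Ten H.I Q.size | u ∈ H.At Q.size}) :
    ∃ z ∈ algR W (Q.obj H.X) i, ∀ w, H.tc Q z w =
      if ¬ H.Off Q w ∧ ∑ l, (H.D.typ (w l)).2 = 2 * i then u w else 0 := by
  induction hu using Submodule.span_induction with
  | mem u hu =>
    obtain ⟨z, hz, h⟩ := at_cut H Q i hu
    exact ⟨z, Submodule.subset_span hz, h⟩
  | zero =>
    refine ⟨0, zero_mem _, fun w => ?_⟩
    rw [map_zero]
    split_ifs <;> rfl
  | add u v _ _ hu hv =>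
    obtain ⟨z, hz, h⟩ := hu
    obtain ⟨z', hz', h'⟩ := hv
    refine ⟨z + z', add_mem hz hz', fun w => ?_⟩
    rw [map_add, Pi.add_apply, h, h']
    split_ifs
    · rfl
    · exact add_zero _
  | smul r u _ hu =>
    obtain ⟨z, hz, h⟩ := hu
    refine ⟨r • z, Submodule.smul_mem _ _ hz, fun w => ?_⟩
    have h1 : H.tc Q (r • z) = (r : ℂ) • H.tc Q z := map_smul (H.tc Q) (r : ℂ) z
    rw [h1, Pi.smul_apply, h]
    split_ifs
    · rw [Pi.smul_apply, smul_eq_mul, Complex.real_smul]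
    · exact smul_zero _

/-- nonnegativity for an algebraic tensor with given labels and degree -/
theorem cd_ten (ca : CAStatement) (cb : CBStatement) {o : Fin m} {T : Matrix H.I H.I ℂ}
    (hT : Iso H o T)
    (h1 : ∀ Q : Prd m, (∀ j, Q.lw j = o) → ∀ i ≤ 2,
      SemiCodim W (Q.obj H.X) (Q.dim H.n) (Q.pol W H.ξ) i)
    {i : ℕ} (hi : i ≤ 2) {L : ℕ} (hL : 0 < L) {u : Ten H.I L} (hu : u ∈ H.At L)
    (lw : Fin L → Fin m) (hlab : ∀ w, u w ≠ 0 → ∀ j, (H.D.typ (w j)).1 = lw j)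
    (hdeg : ∀ w, u w ≠ 0 → ∑ l, (H.D.typ (w l)).2 = 2 * i) :
    ∃ r : ℝ, 0 ≤ r ∧ psiT H.D u u = (r : ℂ) := by
  obtain ⟨n, rfl⟩ : ∃ n, L = n + 1 := ⟨L - 1, by omega⟩
  obtain ⟨Q, hQ, hlw⟩ := GPOS.exists_prd n (fun _ => o)
  revert u lw
  rw [← hQ]
  intro u hu lw hlab hdeg
  have hS : ASys H.D (fun L u => u ∈ H.At L) := aSys_at (at_ H)
  have hv := ca hS hT.mem (u := u) (Submodule.subset_span hu)
  obtain ⟨z, hz, h2⟩ := at_real H Q i hv
  have hsup : ∀ w, gT T u w ≠ 0 → ¬ H.Off Q w ∧ ∑ l, (H.D.typ (w l)).2 = 2 * i := by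
    intro w hw
    obtain ⟨w', -, h3⟩ := Finset.exists_ne_zero_of_sum_ne_zero hw
    have h4 : ∀ j, T (w j) (w' j) ≠ 0 := fun j h5 =>
      h3 (by rw [Finset.prod_eq_zero (Finset.mem_univ j) h5, zero_mul])
    have h5 : u w' ≠ 0 := fun h6 => h3 (by rw [h6, mul_zero])
    refine ⟨?_, ?_⟩
    · rintro ⟨j, hj⟩
      exact hj ((hT.typ _ _ (h4 j)).1.trans (hlw j).symm)
    · rw [← hdeg w' h5]
      exact Finset.sum_congr rfl fun j _ => (hT.typ _ _ (h4 j)).2
  have h3 : H.tc Q z = gT T u := by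
    funext w
    rw [h2]
    by_cases hw : gT T u w = 0
    · rw [hw]
      split_ifs <;> rfl
    · rw [if_pos (hsup w hw)]
  obtain ⟨r, hr, h4⟩ := semi_psi H sl2 staB Q (fun i' hi' => h1 Q hlw i' (hi'.trans hi)) hz
  refine ⟨r, hr, ?_⟩
  rw [← h4, ← (ge H).psi_tc, h3]
  exact (cb hT.iso lw u u hlab hlab).symm

/-- **Row CD.** -/
theorem cd (ca : CAStatement) (cb : CBStatement) : CDStatement.{u, w} := by
  intro k _ m W 𝒱 H o T hT h1 P i hi x hx hxg
  rw [← (ge H).psi_tc]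
  refine cd_ten H ca cb hT h1 hi P.size_pos (u := H.tc P x)
    (AddSubgroup.subset_closure (Or.inr ⟨P, rfl, x, hx, rfl⟩)) P.lw ?_ ?_
  · intro w hw j
    by_contra h
    exact hw ((ge H).tc_off P x w ⟨j, h⟩)
  · intro w hw
    by_contra h
    exact hw (GJ.tc_gr H (ge H) staB P hxg w h)

end cd

end Pool.Agent.Lib.MP_361a6f_ag.FL.CV
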