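import Pool.Agent.Lib.MP_361a6f_ag.FL.CV.Defs

/-!
# Row CF: everything generated by the algebraic classes of codimension at most two, for a family
-/

open CategoryTheory AlgebraicGeometry MonoidalCategory CartesianMonoidalCategory
open Filter Topology

universe u v w w'

set_option autoImplicit false

namespace Pool.Agent.Lib.MP_361a6f_ag.FL.CV

open Pool.Agent.Lib.MP_361a6f_ag.H3 Pool.Agent.Lib.MP_361a6f_ag.SQ
  Pool.Agent.Lib.MP_361a6f_ag.IP2 Pool.Agent.Lib.MP_361a6f_ag.PP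
  Pool.Agent.Lib.MP_361a6f_ag.FL.PTG

/-- the classes made of classes of codimension at most two are algebraic -/
theorem madeF_alg {k : Type u} [Field k] {W : CohomologyData.{u, 0, w} k ℂ} {𝒱 : VarietyClass k}
    (hW : IsWeilCohomology W 𝒱) {m : ℕ} {X : Fin m → Sch k} {n : Fin m → ℕ}
    (hX : ∀ a, 𝒱.mem (X a) (n a)) {P : Prd m} {l : ℕ} {z : W.coh (P.obj X)}
    (h : EQ.MadeF W X n P l z) : z ∈ W.alg (P.obj X) l := by
  have hP : ∀ P : Prd m, 𝒱.mem (P.obj X) (P.dim n) := fun P => memP hX P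
  induction h with
  | alg P l z _ hz => exact hz
  | add P l z z' _ _ h h' => exact add_mem h h'
  | scal P l q z _ h => exact W.alg_smul q h
  | cup P l l' z z' _ _ h h' => exact hW.mul_alg (hP P) h h'
  | pb P Q f l z _ _ h => exact hW.pull_alg (hP P) (hP Q) f h
  | pf P Q f l l' z _ hl _ h => exact hW.push_alg (hP P) (hP Q) f h hl

theorem cf : CFStatement.{u, w} := by
  intro k _ W 𝒱 hW m X n hX ξ hξ hHL hAL j0 hj0 hS P η hη j z hz hj hp hn
  have hP : ∀ P : Prd m, 𝒱.mem (P.obj X) (P.dim n) := fun P => memP hX P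
  obtain ⟨J, hJ⟩ := exists_hrSys hW hX hξ hHL hAL j0 hj0
  obtain ⟨C, G, Par, hodd⟩ := parity_semi W 𝒱 hW hX hξ hHL hAL J hJ
  -- the classes of codimension at most two are even
  have heven : ∀ (P : Prd m) (l : ℕ) (z : W.coh (P.obj X)), l ≤ 2 → z ∈ W.alg (P.obj X) l →
      C 0 P l z := by
    intro P l z hl hz
    obtain ⟨x, y, hx, hy, hxy⟩ := (G.sum P l z).1 (Submodule.subset_span hz)
    have h1 : IsNumR W (P.obj X) l y := hodd P l (fun i hi => hS P i (hi.trans hl)) y hy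
    obtain ⟨V, hV⟩ := G.lin 0 P l
    rw [hV] at hx ⊢
    rw [hxy]
    exact add_mem hx ((hV y).1 ((G.num P l y).1 h1).1)
  -- so all classes made of them are even
  have hgen : ∀ (P : Prd m) (l : ℕ) (z : W.coh (P.obj X)), EQ.MadeF W X n P l z →
      C 0 P l z := by
    intro P l z h
    induction h with
    | alg P l z hl hz => exact heven P l z hl hz
    | add P l z z' _ _ h h' =>
      obtain ⟨V, hV⟩ := G.lin 0 P l
      rw [hV] at h h' ⊢
      exact add_mem h h'
    | scal P l q z _ h =>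
      obtain ⟨V, hV⟩ := G.lin 0 P l
      rw [hV] at h ⊢
      have h1 := V.smul_mem (q : ℝ) h
      have h2 : ((q : ℝ) • z : W.coh (P.obj X)) = W.scal (q : ℂ) z := by
        have e : (((q : ℝ) : ℂ)) = (q : ℂ) := by push_cast; rfl
        change (((q : ℝ) : ℂ)) • z = (q : ℂ) • z
        rw [e]
      rw [← h2]
      exact h1
    | cup P l l' z z' _ _ h h' =>
      have h1 := G.cup P 0 0 l l' z z' h h'
      rwa [add_zero] at h1
    | pb P Q f l z hf _ h => exact G.pb P Q f hf 0 l z h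
    | pf P Q f l l' z hf hl _ h => exact G.pf P Q f hf 0 l l' z hl h
  have hza := madeF_alg hW hX hz
  have hηa : η ∈ W.alg (P.obj X) 1 := isPol_alg hW hX (fun a => (hξ a).1) hη
  have hal : η ^ (P.dim n - 2 * j + 1) * z ∈ W.alg (P.obj X) (P.dim n - j + 1) := by
    have h1 := hW.mul_alg (hP P) (hW.pow_alg (hP P) hηa (P.dim n - 2 * j + 1)) hza
    rwa [show P.dim n - 2 * j + 1 + j = P.dim n - j + 1 by omega] at h1
  obtain ⟨r, hr, h⟩ := Par.form P η hη 0 j z hj (hgen P j z hz)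
    ⟨Submodule.subset_span hal, hp⟩ (fun h => hn h.2)
  have h1 : j + (0 : ZMod 2).val = j := by rw [ZMod.val_zero, add_zero]
  rw [h1] at h
  obtain ⟨q, hq⟩ := tr_rat hW (hP P) (hW.mul_alg (hP P)
    (hW.pow_alg (hP P) hηa (P.dim n - 2 * j)) (hW.mul_alg (hP P) hza hza))
  have h2 : W.Tr (W.cup (η ^ (P.dim n - 2 * j)) (W.cup z z)) = (q : ℂ) := hq
  rw [h2] at h ⊢
  refine ⟨(-1) ^ j * q, ?_, by push_cast; rfl⟩
  have h3 : (((-1) ^ j * q : ℚ) : ℝ) = r := by
    have h4 : ((((-1) ^ j * q : ℚ) : ℝ) : ℂ) = (r : ℂ) := by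
      rw [← h]
      push_cast
      rfl
    exact_mod_cast h4
  exact_mod_cast h3.symm ▸ hr

end Pool.Agent.Lib.MP_361a6f_ag.FL.CV
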