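import Pool.Agent.Lib.MP_361a6f_ag.FL.CV.Defs

/-!
# Row CA: real combinations of correspondences preserve the real span of the members
-/

set_option autoImplicit false
set_option linter.unusedSectionVars false

open Filter Topology

namespace Pool.Agent.Lib.MP_361a6f_ag.FL.CV

open Pool.Agent.Lib.MP_361a6f_ag.FL.E Pool.Agent.Lib.MP_361a6f_ag.FL.E.Slot

variable {I Λ : Type} [Fintype I] [DecidableEq I] [DecidableEq Λ] {D : Dat I Λ}
  {At : (L : ℕ) → Ten I L → Prop}

/-- the sum of the tensors `om` -/
def omA (D : Dat I Λ) : Ten I 2 := fun w => if w 1 = D.τ (w 0) then D.s (w 0) else 0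

theorem omA_eq : omA D = ∑ α ∈ Finset.univ.image D.typ, om D α := by
  funext w
  rw [Finset.sum_apply]
  unfold omA om
  by_cases h : w 1 = D.τ (w 0)
  · rw [if_pos h, Finset.sum_eq_single (D.typ (w 0))]
    · rw [if_pos ⟨rfl, h⟩]
    · intro α _ hα
      rw [if_neg fun h' => hα h'.1.symm]
    · intro h'
      exact absurd (Finset.mem_image_of_mem _ (Finset.mem_univ _)) h'
  · rw [if_neg h, Finset.sum_eq_zero]
    intro α _
    rw [if_neg fun h' => h h'.2]

theorem sum_mem (S : ASys D At) {ι : Type} (s : Finset ι) {L : ℕ} (f : ι → Ten I L)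
    (h : ∀ i ∈ s, At L (f i)) : At L (∑ i ∈ s, f i) := by
  classical
  induction s using Finset.induction_on with
  | empty =>
    rw [Finset.sum_empty]
    exact S.zero L
  | insert a s ha ih =>
    rw [Finset.sum_insert ha]
    exact S.add L _ _ (h a (Finset.mem_insert_self a s))
      (ih fun i hi => h i (Finset.mem_insert_of_mem hi))

theorem omA_mem (S : ASys D At) : At 2 (omA D) := by
  rw [omA_eq]
  exact sum_mem S _ _ fun α _ => S.om α

theorem cont_omA {L : ℕ} (m : Ten I (2 + L)) (w : Fin L → I) :
    cont D (omA D) m w = ∑ b, D.s b * m (Fin.append ![b, D.τ b] w) := by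
  unfold cont omA
  have h1 : ∀ w' : Fin 2 → I, sg D w' * ((if w' 1 = D.τ (w' 0) then
      D.s (w' 0) else 0) * m (Fin.append (D.τ ∘ w') w)) =
      if w' 1 = D.τ (w' 0) then D.s (D.τ (w' 0)) * m (Fin.append (D.τ ∘ w') w) else 0 := by
    intro w'
    by_cases h : w' 1 = D.τ (w' 0)
    · rw [if_pos h, if_pos h, sg, Fin.prod_univ_two, h]
      linear_combination (D.s (D.τ (w' 0)) * m (Fin.append (D.τ ∘ w') w)) * s_sq (D := D) (w' 0)
    · rw [if_neg h, if_neg h, zero_mul, mul_zero]
  rw [Finset.sum_congr rfl fun w' _ => h1 w', ← Finset.sum_filter]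
  refine (Finset.sum_bij (fun (b : I) _ => ![D.τ b, b]) ?_ ?_ ?_ ?_).symm
  · intro b _
    rw [Finset.mem_filter]
    exact ⟨Finset.mem_univ _, (D.τ_τ b).symm⟩
  · intro a _ b _ h
    exact congrFun h 1
  · intro w' hw'
    have h2 := (Finset.mem_filter.1 hw').2
    refine ⟨w' 1, Finset.mem_univ _, ?_⟩
    funext i
    fin_cases i
    · change D.τ (w' 1) = w' 0
      rw [h2, D.τ_τ]
    · rfl
  · intro b _
    have h3 : (D.τ ∘ ![D.τ b, b]) = ![b, D.τ b] := by
      funext i
      fin_cases i
      · exact D.τ_τ b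
      · rfl
    rw [h3]
    change D.s b * _ = D.s (D.τ (D.τ b)) * _
    rw [D.τ_τ]

/-- one slot of the operator of a member of length two -/
theorem sl_eq' {L : ℕ} (z : Ten I 2) (r : Fin L) (u : Ten I L) :
    sl (opM D z) r u = cont D (omA D)
      (permT (Equiv.swap (Fin.castAdd L (0 : Fin 2)) (Fin.natAdd 2 r)) (outer z u)) := by
  funext w
  rw [cont_omA]
  unfold sl
  refine Finset.sum_congr rfl fun b _ => ?_
  have h1 : permT (Equiv.swap (Fin.castAdd L (0 : Fin 2)) (Fin.natAdd 2 r)) (outer z u)
      (Fin.append ![b, D.τ b] w) = z ![w r, D.τ b] * u (Function.update w r b) := by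
    unfold permT outer
    congr 1
    · congr 1
      funext i
      fin_cases i
      · change Fin.append ![b, D.τ b] w (Equiv.swap (Fin.castAdd L (0 : Fin 2)) (Fin.natAdd 2 r)
          (Fin.castAdd L (0 : Fin 2))) = w r
        rw [Equiv.swap_apply_left, Fin.append_right]
      · change Fin.append ![b, D.τ b] w (Equiv.swap (Fin.castAdd L (0 : Fin 2)) (Fin.natAdd 2 r)
          (Fin.castAdd L (1 : Fin 2))) = D.τ b
        rw [Equiv.swap_apply_of_ne_of_ne, Fin.append_left]
        · rfl
        · intro h
          have := congrArg Fin.val h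
          simp at this
        · intro h
          have := congrArg Fin.val h
          simp at this
          omega
    · congr 1
      funext i
      change Fin.append ![b, D.τ b] w (Equiv.swap (Fin.castAdd L (0 : Fin 2)) (Fin.natAdd 2 r)
          (Fin.natAdd 2 i)) = Function.update w r b i
      by_cases hi : i = r
      · subst hi
        rw [Equiv.swap_apply_right, Fin.append_left, Function.update_self]
        rfl
      · rw [Equiv.swap_apply_of_ne_of_ne, Fin.append_right, Function.update_of_ne hi]
        · intro h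
          have := congrArg Fin.val h
          simp at this
        · intro h
          apply hi
          have := congrArg Fin.val h
          simp at this
          exact Fin.ext this
  rw [h1]
  unfold opM
  ring

theorem sl_mem' (S : ASys D At) {L : ℕ} {z : Ten I 2} (hz : At 2 z) (r : Fin L) {u : Ten I L}
    (hu : At L u) : At L (sl (opM D z) r u) := by
  rw [sl_eq']
  exact S.cont 2 L _ _ (omA_mem S) (S.perm _ _ _ (S.outer 2 L z u hz hu))

theorem sl_rsmul (A : Matrix I I ℂ) {L : ℕ} (r : Fin L) (c : ℝ) (u : Ten I L) :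
    sl A r (c • u) = c • sl A r u := by
  have h := sl_smul A r (c : ℂ) u
  have e : ∀ v : Ten I L, (c : ℂ) • v = c • v := fun v => by
    funext w
    rw [Pi.smul_apply, Pi.smul_apply, smul_eq_mul, Complex.real_smul]
  rwa [e, e] at h

theorem rsmul_sl (c : ℝ) (A : Matrix I I ℂ) {L : ℕ} (r : Fin L) (u : Ten I L) :
    sl (c • A) r u = c • sl A r u := by
  have h := smul_sl (c : ℂ) A r u
  have e : ∀ v : Ten I L, (c : ℂ) • v = c • v := fun v => by
    funext w
    rw [Pi.smul_apply, Pi.smul_apply, smul_eq_mul, Complex.real_smul]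
  have e' : (c : ℂ) • A = c • A := by
    ext i j
    rw [Matrix.smul_apply, Matrix.smul_apply, smul_eq_mul, Complex.real_smul]
  rwa [e, e'] at h

theorem sl_rspan (S : ASys D At) {T : Matrix I I ℂ}
    (hT : T ∈ Submodule.span ℝ {M | ∃ z, At 2 z ∧ M = opM D z}) {L : ℕ} (r : Fin L) {u : Ten I L}
    (hu : u ∈ Submodule.span ℝ {u : Ten I L | At L u}) :
    sl T r u ∈ Submodule.span ℝ {u : Ten I L | At L u} := by
  induction hT using Submodule.span_induction with
  | mem M hM =>
    obtain ⟨z, hz, rfl⟩ := hM
    induction hu using Submodule.span_induction with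
    | mem u hu => exact Submodule.subset_span (sl_mem' S hz r hu)
    | zero =>
      have h := sl_rsmul (opM D z) r (0 : ℝ) (0 : Ten I L)
      rw [zero_smul, zero_smul] at h
      rw [h]
      exact zero_mem _
    | add a b _ _ ha hb => rw [sl_add]; exact add_mem ha hb
    | smul c a _ ha => rw [sl_rsmul]; exact Submodule.smul_mem _ _ ha
  | zero =>
    have h := rsmul_sl (0 : ℝ) (0 : Matrix I I ℂ) r u
    rw [zero_smul, zero_smul] at h
    rw [h]
    exact zero_mem _
  | add A B _ _ hA hB => rw [add_sl]; exact add_mem hA hB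
  | smul c A _ hA => rw [rsmul_sl]; exact Submodule.smul_mem _ _ hA

/-- **Row CA.** -/
theorem ca : CAStatement := by
  intro I Λ _ _ _ D At S T hT L u hu
  rw [← gP_univ]
  induction (Finset.univ : Finset (Fin L)) using Finset.induction_on with
  | empty => rwa [gP_empty]
  | insert r s hr ih =>
    rw [gP_insert T s r hr]
    exact sl_rspan S hT r ih

end Pool.Agent.Lib.MP_361a6f_ag.FL.CV
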