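import Pool.Agent.Lib.MP_361a6f_ag.FL.CV.Defs

/-!
# Row CB: isometries on the factors
-/

set_option autoImplicit false
set_option linter.unusedSectionVars false

namespace Pool.Agent.Lib.MP_361a6f_ag.FL.CV

variable {I Λ : Type} [Fintype I] [DecidableEq I] [DecidableEq Λ] (D : Dat I Λ)

/-- `ψ` as a double sum -/
theorem psiT_eq {L : ℕ} (u v : Ten I L) :
    psiT D u v = ∑ w, ∑ w', (∏ i, Psi D (w i) (w' i)) * (u w * v w') := by
  unfold psiT
  refine Finset.sum_congr rfl fun w _ => ?_
  rw [Finset.sum_eq_single (D.τ ∘ w)]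
  · have h : (∏ i, Psi D (w i) ((D.τ ∘ w) i)) = sg D w := by
      unfold sg
      refine Finset.prod_congr rfl fun i _ => ?_
      rw [Psi, Matrix.of_apply]
      exact if_pos rfl
    rw [h]
  · intro w' _ hw'
    obtain ⟨i, hi⟩ : ∃ i, w' i ≠ D.τ (w i) := by
      by_contra h
      push Not at h
      exact hw' (funext fun i => h i)
    rw [Finset.prod_eq_zero (Finset.mem_univ i), zero_mul]
    rw [Psi, Matrix.of_apply, if_neg hi]
  · intro h
    exact absurd (Finset.mem_univ _) h

/-- `ψ` of two images -/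
theorem psiT_gT (T : Matrix I I ℂ) {L : ℕ} (u v : Ten I L) :
    psiT D (gT T u) (gT T v) =
      ∑ w, ∑ w', (∏ i, (T.transpose * Psi D * T) (w i) (w' i)) * (u w * v w') := by
  rw [psiT_eq]
  have h1 : ∀ w w' : Fin L → I, (∏ i, (T.transpose * Psi D * T) (w i) (w' i)) =
      ∑ x : Fin L → I, ∑ y : Fin L → I,
        (∏ i, T (x i) (w i)) * (∏ i, Psi D (x i) (y i)) * ∏ i, T (y i) (w' i) := by
    intro w w'
    have h2 : ∀ i, (T.transpose * Psi D * T) (w i) (w' i) =
        ∑ p : I × I, T p.1 (w i) * Psi D p.1 p.2 * T p.2 (w' i) := by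
      intro i
      rw [Matrix.mul_apply, Fintype.sum_prod_type, Finset.sum_comm]
      refine Finset.sum_congr rfl fun y _ => ?_
      rw [Matrix.mul_apply, Finset.sum_mul]
      rfl
    rw [Finset.prod_congr rfl fun i _ => h2 i, Finset.prod_univ_sum, Fintype.piFinset_univ,
      ← Fintype.sum_prod_type']
    refine Fintype.sum_equiv (Equiv.arrowProdEquivProdArrow (Fin L) (fun _ => I) (fun _ => I))
      _ _ fun p => ?_
    rw [Finset.prod_mul_distrib, Finset.prod_mul_distrib]
    rfl
  calc ∑ x : Fin L → I, ∑ y : Fin L → I, (∏ i, Psi D (x i) (y i)) * (gT T u x * gT T v y)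
      = ∑ x : Fin L → I, ∑ y : Fin L → I, ∑ w : Fin L → I, ∑ w' : Fin L → I, (∏ i, T (x i) (w i)) * (∏ i, Psi D (x i) (y i)) *
          (∏ i, T (y i) (w' i)) * (u w * v w') := by
        refine Finset.sum_congr rfl fun x _ => Finset.sum_congr rfl fun y _ => ?_
        unfold gT
        rw [Finset.sum_mul_sum, Finset.mul_sum]
        refine Finset.sum_congr rfl fun w _ => ?_
        rw [Finset.mul_sum]
        exact Finset.sum_congr rfl fun w' _ => by ring
    _ = ∑ w : Fin L → I, ∑ w' : Fin L → I, ∑ x : Fin L → I, ∑ y : Fin L → I, (∏ i, T (x i) (w i)) * (∏ i, Psi D (x i) (y i)) *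
          (∏ i, T (y i) (w' i)) * (u w * v w') := by
        have e1 : ∀ x : Fin L → I, ∑ y : Fin L → I, ∑ w : Fin L → I, ∑ w' : Fin L → I, (∏ i, T (x i) (w i)) *
            (∏ i, Psi D (x i) (y i)) * (∏ i, T (y i) (w' i)) * (u w * v w') =
            ∑ w : Fin L → I, ∑ w' : Fin L → I, ∑ y : Fin L → I, (∏ i, T (x i) (w i)) * (∏ i, Psi D (x i) (y i)) *
            (∏ i, T (y i) (w' i)) * (u w * v w') := by
          intro x
          rw [Finset.sum_comm]
          exact Finset.sum_congr rfl fun w _ => Finset.sum_comm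
        rw [Finset.sum_congr rfl fun x _ => e1 x, Finset.sum_comm]
        exact Finset.sum_congr rfl fun w _ => Finset.sum_comm
    _ = _ := by
        refine Finset.sum_congr rfl fun w _ => Finset.sum_congr rfl fun w' _ => ?_
        rw [h1 w w', Finset.sum_mul]
        refine Finset.sum_congr rfl fun x _ => ?_
        rw [Finset.sum_mul]

/-- **Row CB.** -/
theorem cb : CBStatement := by
  intro I _ _ m D T hT L lw u v hu hv
  rw [psiT_gT, psiT_eq]
  refine Finset.sum_congr rfl fun w _ => Finset.sum_congr rfl fun w' _ => ?_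
  by_cases h : u w * v w' = 0
  · rw [h, mul_zero, mul_zero]
  · have h1 : u w ≠ 0 := fun h' => h (by rw [h', zero_mul])
    have h2 : v w' ≠ 0 := fun h' => h (by rw [h', mul_zero])
    congr 1
    refine Finset.prod_congr rfl fun i _ => hT _ _ ?_
    rw [hu w h1 i, hv w' h2 i]

end Pool.Agent.Lib.MP_361a6f_ag.FL.CV
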