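import Pool.Agent.Lib.MP_361a6f_ag.FL.CV.Defs
import Pool.Agent.Lib.MP_361a6f_ag.FL.AtRow
import Pool.Agent.Lib.MP_361a6f_ag.FL.GT

/-!
# Row CC: the isometry from its pieces
-/

open CategoryTheory AlgebraicGeometry MonoidalCategory CartesianMonoidalCategory

universe u v w w'

set_option autoImplicit false

namespace Pool.Agent.Lib.MP_361a6f_ag.FL.CV

open Pool.Agent.Lib.MP_361a6f_ag.H3 Pool.Agent.Lib.MP_361a6f_ag.SQ
  Pool.Agent.Lib.MP_361a6f_ag.PP Pool.Agent.Lib.MP_361a6f_ag.FL.PTG

section abs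

variable {I : Type} [Fintype I] [DecidableEq I]

theorem opM_om_apply {Λ : Type} [DecidableEq Λ] (D : Dat I Λ) (α : Λ) (x i : I) :
    E.opM D (om D α) x i = if D.typ x = α ∧ x = i then 1 else 0 := by
  have h1 : E.opM D (om D α) x i = om D α ![x, D.τ i] * D.s i := rfl
  have h2 : om D α ![x, D.τ i] = if D.typ x = α ∧ D.τ i = D.τ x then D.s x else 0 := rfl
  rw [h1, h2]
  by_cases h : D.typ x = α ∧ x = i
  · obtain ⟨h3, rfl⟩ := h
    rw [if_pos ⟨h3, rfl⟩, if_pos ⟨h3, rfl⟩]
    rcases D.s_val x with e | e <;> rw [e] <;> norm_num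
  · rw [if_neg h, if_neg, zero_mul]
    rintro ⟨h3, h4⟩
    refine h ⟨h3, ?_⟩
    rw [← D.τ_τ x, ← h4, D.τ_τ]

theorem glue {m : ℕ} {D : Dat I (Fin m × ℕ)} (S : Submodule ℝ (Matrix I I ℂ)) {o : Fin m}
    (h : ∀ l : Fin m × ℕ, ∃ T ∈ S,
      (∀ x i, T x i ≠ 0 → D.typ x = (o, l.2) ∧ D.typ i = l) ∧
      ∀ i j, D.typ i = l → D.typ j = l → (T.transpose * Psi D * T) i j = Psi D i j) :
    ∃ T ∈ S, (∀ x i, T x i ≠ 0 → (D.typ x).1 = o ∧ (D.typ x).2 = (D.typ i).2) ∧
      ∀ i j, (D.typ i).1 = (D.typ j).1 → (T.transpose * Psi D * T) i j = Psi D i j := by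
  classical
  choose T hT h1 h2 using h
  have hv : ∀ x i, (∑ l ∈ Finset.univ.image D.typ, T l) x i = T (D.typ i) x i := by
    intro x i
    rw [Matrix.sum_apply]
    refine Finset.sum_eq_single (D.typ i) ?_ ?_
    · intro l _ hl
      by_contra h0
      exact hl (h1 l x i h0).2.symm
    · intro h0
      exact absurd (Finset.mem_image_of_mem _ (Finset.mem_univ i)) h0
  refine ⟨∑ l ∈ Finset.univ.image D.typ, T l, Submodule.sum_mem _ fun l _ => hT l, ?_, ?_⟩
  · intro x i h0
    rw [hv] at h0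
    have h3 := (h1 _ x i h0).1
    rw [h3]
    exact ⟨rfl, rfl⟩
  · intro i j hij
    have h4 : ((∑ l ∈ Finset.univ.image D.typ, T l).transpose * Psi D
        * (∑ l ∈ Finset.univ.image D.typ, T l)) i j
        = ((T (D.typ i)).transpose * Psi D * (T (D.typ j))) i j := by
      rw [Matrix.mul_apply, Matrix.mul_apply]
      refine Finset.sum_congr rfl fun y _ => ?_
      rw [hv, Matrix.mul_apply, Matrix.mul_apply]
      congr 1
      refine Finset.sum_congr rfl fun x _ => ?_
      rw [Matrix.transpose_apply, Matrix.transpose_apply, hv]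
    rw [h4]
    by_cases hl : D.typ i = D.typ j
    · rw [← hl]
      exact h2 _ i j rfl hl.symm
    · have h5 : Psi D i j = 0 := by
        refine if_neg fun h6 => hl ?_
        rw [h6, D.typ_τ]
      rw [h5, Matrix.mul_apply]
      refine Finset.sum_eq_zero fun y _ => ?_
      rw [Matrix.mul_apply, Finset.sum_mul]
      refine Finset.sum_eq_zero fun x _ => ?_
      rw [Matrix.transpose_apply]
      by_contra h0
      have h6 : T (D.typ i) x i ≠ 0 := fun e => h0 (by rw [e, zero_mul, zero_mul])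
      have h7 : T (D.typ j) y j ≠ 0 := fun e => h0 (by rw [e, mul_zero])
      have h8 : y = D.τ x := by
        by_contra h9
        have h10 : Psi D x y = 0 := if_neg h9
        exact h0 (by rw [h10, mul_zero, zero_mul])
      have h11 := (h1 _ x i h6).1
      have h12 := (h1 _ y j h7).1
      rw [h8, D.typ_τ, h11] at h12
      have h13 : (D.typ i).2 = (D.typ j).2 := (Prod.mk.inj h12).2
      exact hl (Prod.ext hij h13)

end abs

/-- the letters of a factor of dimension one have degree at most two -/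
theorem typ_le {k : Type u} [Field k] {m : ℕ} {W : CohomologyData.{u, 0, w} k ℂ}
    {𝒱 : VarietyClass k} (H : Host W 𝒱 m) {a : Fin m} (i : H.I) (hi : (H.D.typ i).1 = a) :
    (H.D.typ i).2 ≤ 2 * H.n a := by
  by_contra h
  have h0 : H.e a i = 0 := H.hW.graded.top (H.mem a) (H.e_gr a i) (not_le.1 h)
  have h1 := H.e_psi a i (H.D.τ i) hi (by rw [H.D.typ_τ, hi])
  rw [if_pos rfl, h0] at h1
  have h2 : psi W (H.X a) (H.ξ a) (H.Lam a) (H.lam a).slm.internal 0 (H.e a (H.D.τ i)) = 0 := by
    simp [psi]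
  rw [h2] at h1
  rcases H.D.s_val i with e | e <;> rw [e] at h1 <;> norm_num at h1

/-- **Row CC.** -/
theorem cc (h1 : CC1Statement.{u, w}) (h0 : CC0Statement.{u, w}) : CCStatement.{u, w} := by
  intro k _ m W 𝒱 H o hF
  suffices h : ∀ l : Fin m × ℕ, ∃ T ∈ Submodule.span ℝ {M | ∃ z, z ∈ H.At 2 ∧ M = E.opM H.D z},
      (∀ x i, T x i ≠ 0 → H.D.typ x = (o, l.2) ∧ H.D.typ i = l) ∧
      ∀ i j, H.D.typ i = l → H.D.typ j = l →
        (T.transpose * Psi H.D * T) i j = Psi H.D i j by
    obtain ⟨T, hT, ht, hi⟩ := glue _ h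
    exact ⟨T, hT, ht, hi⟩
  · rintro ⟨a, d⟩
    by_cases ha : a = o
    · subst ha
      refine ⟨E.opM H.D (om H.D (a, d)),
        Submodule.subset_span ⟨om H.D (a, d), (aSys_at (at_ H)).om _, rfl⟩, ?_, ?_⟩
      · intro x i hx
        rw [opM_om_apply] at hx
        by_cases h2 : H.D.typ x = (a, d) ∧ x = i
        · exact ⟨h2.1, h2.2 ▸ h2.1⟩
        · exact absurd (if_neg h2) hx
      · intro i j hi hj
        rw [Matrix.mul_apply, Finset.sum_eq_single j]
        · rw [Matrix.mul_apply, Finset.sum_eq_single i]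
          · rw [Matrix.transpose_apply, opM_om_apply, opM_om_apply, if_pos ⟨hi, rfl⟩,
              if_pos ⟨hj, rfl⟩, one_mul, mul_one]
          · intro x _ hx
            rw [Matrix.transpose_apply, opM_om_apply, if_neg (fun h => hx h.2), zero_mul]
          · intro h
            exact absurd (Finset.mem_univ _) h
        · intro y _ hy
          rw [opM_om_apply, if_neg (fun h => hy h.2), mul_zero]
        · intro h
          exact absurd (Finset.mem_univ _) h
    · by_cases hd : d = 1
      · subst hd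
        exact h1 H hF a ha
      · by_cases hd2 : d = 0 ∨ d = 2
        · exact h0 H hF a ha d hd2
        · refine ⟨0, zero_mem _, fun x i hx => absurd rfl hx, ?_⟩
          intro i j hi _
          exfalso
          have h3 := typ_le H (a := a) i (by rw [hi])
          rw [hi, hF.one a ha] at h3
          have h4 : d ≤ 2 := h3
          omega

end Pool.Agent.Lib.MP_361a6f_ag.FL.CV
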