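import Pool.Agent.Lib.MP_361a6f_ag.FL.CV.Defs
import Pool.Agent.Lib.MP_361a6f_ag.FL.B.HrA
import Pool.Agent.Lib.MP_361a6f_ag.H3.Corr

/-!
# Row CE: the Lefschetz theorems and a Hodge-Riemann structure for a curve
-/

open CategoryTheory AlgebraicGeometry MonoidalCategory CartesianMonoidalCategory

universe u v w w'

set_option autoImplicit false

namespace Pool.Agent.Lib.MP_361a6f_ag.FL.CV

open Pool.Agent.Lib.MP_361a6f_ag.H3 Pool.Agent.Lib.MP_361a6f_ag.SQ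
  Pool.Agent.Lib.MP_361a6f_ag.PP Pool.Agent.Lib.MP_361a6f_ag.FL.PTG

namespace Ce

variable {k : Type u} [Field k] {W : CohomologyData.{u, 0, w} k ℂ} {𝒱 : VarietyClass k}
  (hW : IsWeilCohomology W 𝒱) {Y : Sch k} {p : W.coh Y} (hY : 𝒱.mem Y 1)
  (h0 : ∀ x, W.Deg Y 0 x → ∃ c, x = W.scal c 1) (hp : PositiveDivisor W Y 1 p)

include hp in
theorem tr_p : ∃ q : ℚ, 0 < q ∧ W.tr Y p = (q : ℂ) := by
  obtain ⟨q, hq, h⟩ := hp.2
  refine ⟨q, hq, ?_⟩
  have h1 : W.tr Y (p ^ 1) = (q : ℂ) := h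
  rwa [pow_one] at h1

include hp in
theorem tr_p_ne : W.tr Y p ≠ 0 := by
  obtain ⟨q, hq, h⟩ := tr_p hp
  rw [h]
  exact_mod_cast hq.ne'

include hW hY hp in
theorem p_gr : p ∈ W.gr Y 2 := hW.alg_gr hY hp.1

include hW hY in
theorem gr_big {i : ℕ} {x : W.coh Y} (hx : x ∈ W.gr Y i) (hi : 3 ≤ i) : x = 0 :=
  hW.top_gr hY hx (by omega)

include h0 in
theorem gr_zero {x : W.coh Y} (hx : x ∈ W.gr Y 0) : ∃ c : ℂ, x = c • (1 : W.coh Y) := h0 x hx

include hW hY h0 hp in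
theorem gr_two {z : W.coh Y} (hz : z ∈ W.gr Y 2) : z = (W.tr Y z / W.tr Y p) • p := by
  have hq := tr_p_ne hp
  rw [← sub_eq_zero]
  refine hW.duality hY _ fun v => ?_
  refine hW.hom_induction hY
    (P := fun v => W.tr Y ((z - (W.tr Y z / W.tr Y p) • p) * v) = 0) v ?_ ?_ ?_
  · intro i v hv
    rcases Nat.eq_zero_or_pos i with rfl | hi
    · obtain ⟨c, hc⟩ := gr_zero h0 hv
      rw [hc, mul_smul_comm, mul_one, map_smul, map_sub, map_smul, smul_eq_mul, smul_eq_mul,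
        div_mul_cancel₀ _ hq, sub_self, mul_zero]
    · rw [gr_big hW hY (hW.mul_gr hY (sub_mem hz (Submodule.smul_mem _ _ (p_gr hW hY hp))) hv)
        (by omega), map_zero]
  · simp
  · intro x y hx hy
    rw [mul_add, map_add, hx, hy, add_zero]

include h0 hp in
theorem hard : HardLefschetz W Y 1 p := by
  intro i x hi hx h
  rcases Nat.le_one_iff_eq_zero_or_eq_one.1 hi with rfl | rfl
  · obtain ⟨c, hc⟩ := gr_zero h0 hx
    have h1 : p ^ (1 - 0) * x = 0 := h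
    rw [hc, Nat.sub_zero, pow_one, mul_smul_comm, mul_one] at h1
    have h2 := congrArg (W.tr Y) h1
    rw [map_smul, map_zero, smul_eq_mul] at h2
    rcases mul_eq_zero.1 h2 with h3 | h3
    · rw [hc, h3, zero_smul]
    · exact absurd h3 (tr_p_ne hp)
  · have h1 : p ^ (1 - 1) * x = 0 := h
    rwa [Nat.sub_self, pow_zero, one_mul] at h1

include hW hY h0 hp in
theorem lambda : AlgebraicLambda W Y 1 p := by
  obtain ⟨q, hq, htr⟩ := tr_p hp
  have hYY := 𝒱.prod hY hY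
  have key : ∀ y : W.coh Y, W.push (snd Y Y) (W.pull (fst Y Y) y *
      (((q⁻¹ : ℚ) : ℂ) • (1 : W.coh (Y ⊗ Y)))) = (W.tr Y y / W.tr Y p) • (1 : W.coh Y) := by
    intro y
    have h1 := push_snd hW hY y 1
    rw [map_one, mul_one] at h1
    rw [mul_smul_comm, mul_one, map_smul, h1, smul_smul, htr]
    congr 1
    push_cast
    ring
  refine ⟨((q⁻¹ : ℚ) : ℂ) • (1 : W.coh (Y ⊗ Y)), W.alg_smul _ (hW.one_alg hYY), ?_⟩
  intro i r x hi hr hx
  have h1 : W.pf (Y.pr₂ Y) (W.cup (W.pb (Y.pr₁ Y) (W.cup (p ^ r) x))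
      (((q⁻¹ : ℚ) : ℂ) • (1 : W.coh (Y ⊗ Y)))) = (W.tr Y (p ^ r * x) / W.tr Y p) • (1 : W.coh Y) :=
    key _
  rw [h1]
  change _ = ((r * (1 - i - r + 1) : ℕ) : ℂ) • (p ^ (r - 1) * x)
  rcases Nat.eq_zero_or_pos r with rfl | hr0
  · rw [pow_zero, one_mul, hW.tr_gr hY hx.1 (by omega), zero_div, zero_smul, Nat.zero_mul,
      Nat.cast_zero, zero_smul]
  · obtain ⟨rfl, rfl⟩ : i = 0 ∧ r = 1 := by omega
    obtain ⟨c, hc⟩ := gr_zero h0 hx.1
    rw [hc, pow_one, mul_smul_comm, mul_one, map_smul, smul_eq_mul, mul_div_assoc,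
      div_self (tr_p_ne hp), mul_one, Nat.sub_self, pow_zero, one_mul]
    simp

/-! ### the antilinear map -/

/-- the form on `H^1` -/
noncomputable def B (W : CohomologyData.{u, 0, w} k ℂ) (Y : Sch k) :
    W.gr Y 1 →ₗ[ℂ] W.gr Y 1 →ₗ[ℂ] ℂ :=
  LinearMap.mk₂ ℂ (fun x y => -W.tr Y ((x : W.coh Y) * (y : W.coh Y)))
    (fun x x' y => by rw [Submodule.coe_add, add_mul, map_add, neg_add])
    (fun c x y => by
      rw [Submodule.coe_smul, smul_mul_assoc, map_smul, smul_eq_mul, smul_eq_mul, mul_neg])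
    (fun x y y' => by rw [Submodule.coe_add, mul_add, map_add, neg_add])
    (fun c x y => by
      rw [Submodule.coe_smul, mul_smul_comm, map_smul, smul_eq_mul, smul_eq_mul, mul_neg])

theorem B_apply (x y : W.gr Y 1) : B W Y x y = -W.tr Y ((x : W.coh Y) * (y : W.coh Y)) := rfl

include hW hY in
theorem B_alt (x y : W.gr Y 1) : B W Y x y = -B W Y y x := by
  rw [B_apply, B_apply, hW.comm_gr hY x.2 y.2, map_smul, smul_eq_mul]
  norm_num

include hW hY in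
theorem B_nondeg (x : W.gr Y 1) (hx : ∀ y, B W Y x y = 0) : x = 0 := by
  refine Subtype.ext (hW.duality hY _ fun v => ?_)
  refine hW.hom_induction hY (P := fun v => W.tr Y ((x : W.coh Y) * v) = 0) v ?_ ?_ ?_
  · intro i v hv
    by_cases hi : i = 1
    · subst hi
      have h1 := hx ⟨v, hv⟩
      rw [B_apply, neg_eq_zero] at h1
      exact h1
    · exact hW.tr_gr hY (hW.mul_gr hY x.2 hv) (by omega)
  · simp
  · intro a b ha hb
    rw [mul_add, map_add, ha, hb, add_zero]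

/-- an antilinear map of `H^1`, extended by zero -/
noncomputable def j1 (I : DirectSum.IsInternal (W.gr Y))
    (J : W.gr Y 1 →ₛₗ[starRingEnd ℂ] W.gr Y 1) : W.coh Y →ₛₗ[starRingEnd ℂ] W.coh Y where
  toFun x := (J ⟨AV48.pj I 1 x, AV48.pj_mem I 1 x⟩ : W.gr Y 1)
  map_add' x y := by
    have e : (⟨AV48.pj I 1 (x + y), AV48.pj_mem I 1 _⟩ : W.gr Y 1)
        = ⟨AV48.pj I 1 x, AV48.pj_mem I 1 x⟩ + ⟨AV48.pj I 1 y, AV48.pj_mem I 1 y⟩ :=
      Subtype.ext (map_add _ x y)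
    rw [e, map_add, Submodule.coe_add]
  map_smul' c x := by
    have e : (⟨AV48.pj I 1 (c • x), AV48.pj_mem I 1 _⟩ : W.gr Y 1)
        = c • ⟨AV48.pj I 1 x, AV48.pj_mem I 1 x⟩ :=
      Subtype.ext (map_smul _ c x)
    rw [e, LinearMap.map_smulₛₗ, Submodule.coe_smul]

variable (I : DirectSum.IsInternal (W.gr Y)) (J : W.gr Y 1 →ₛₗ[starRingEnd ℂ] W.gr Y 1)

theorem j1_mem (x : W.coh Y) : j1 I J x ∈ W.gr Y 1 :=
  (J ⟨AV48.pj I 1 x, AV48.pj_mem I 1 x⟩).2

theorem j1_same {x : W.coh Y} (hx : x ∈ W.gr Y 1) : j1 I J x = (J ⟨x, hx⟩ : W.gr Y 1) := by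
  have e : (⟨AV48.pj I 1 x, AV48.pj_mem I 1 x⟩ : W.gr Y 1) = ⟨x, hx⟩ :=
    Subtype.ext (AV48.pj_same _ hx)
  show ((J ⟨AV48.pj I 1 x, AV48.pj_mem I 1 x⟩ : W.gr Y 1) : W.coh Y) = _
  rw [e]

theorem j1_ne {i : ℕ} (hi : i ≠ 1) {x : W.coh Y} (hx : x ∈ W.gr Y i) : j1 I J x = 0 := by
  have e : (⟨AV48.pj I 1 x, AV48.pj_mem I 1 x⟩ : W.gr Y 1) = 0 :=
    Subtype.ext (AV48.pj_ne I hi hx)
  show ((J ⟨AV48.pj I 1 x, AV48.pj_mem I 1 x⟩ : W.gr Y 1) : W.coh Y) = _
  rw [e, map_zero, Submodule.coe_zero]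

/-- the antilinear map of the cohomology algebra -/
noncomputable def jj (p : W.coh Y) : W.coh Y →ₛₗ[starRingEnd ℂ] W.coh Y where
  toFun x := starRingEnd ℂ (W.tr Y (p * x)) • ((W.tr Y p)⁻¹ • (1 : W.coh Y)) + j1 I J x +
    starRingEnd ℂ (W.tr Y x) • ((W.tr Y p)⁻¹ • p)
  map_add' x y := by
    rw [mul_add, map_add, map_add, map_add, map_add, map_add, add_smul, add_smul]
    abel
  map_smul' c x := by
    have e1 : W.tr Y (p * (c • x)) = c * W.tr Y (p * x) := by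
      rw [mul_smul_comm, map_smul, smul_eq_mul]
    have e2 : W.tr Y (c • x) = c * W.tr Y x := by rw [map_smul, smul_eq_mul]
    have e3 : ∀ z : ℂ, starRingEnd ℂ (c * z) = starRingEnd ℂ c * starRingEnd ℂ z :=
      fun z => map_mul _ _ _
    rw [e1, e2, e3, e3, LinearMap.map_smulₛₗ, smul_add, smul_add, mul_smul, mul_smul]

theorem jj_apply (x : W.coh Y) : jj I J p x =
    starRingEnd ℂ (W.tr Y (p * x)) • ((W.tr Y p)⁻¹ • (1 : W.coh Y)) + j1 I J x +
    starRingEnd ℂ (W.tr Y x) • ((W.tr Y p)⁻¹ • p) := rfl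

include hp in
theorem conj_p : starRingEnd ℂ (W.tr Y p) = W.tr Y p := by
  obtain ⟨q, hq, h⟩ := tr_p hp
  rw [h]
  exact map_ratCast (starRingEnd ℂ) q

include hW hY hp in
theorem jj_zero (c : ℂ) : jj I J p (c • (1 : W.coh Y)) = starRingEnd ℂ c • (1 : W.coh Y) := by
  have h1 : W.tr Y (c • (1 : W.coh Y)) = 0 :=
    hW.tr_gr hY (Submodule.smul_mem _ c (hW.one_gr hY)) (by omega)
  rw [jj_apply, j1_ne I J (i := 0) (by omega) (Submodule.smul_mem _ c (hW.one_gr hY)), h1,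
    map_zero, zero_smul, add_zero, add_zero, mul_smul_comm, mul_one, map_smul, smul_eq_mul,
    map_mul, conj_p hp, smul_smul, mul_assoc, mul_inv_cancel₀ (tr_p_ne hp), mul_one]

include hW hY hp in
theorem jj_one {x : W.coh Y} (hx : x ∈ W.gr Y 1) : jj I J p x = (J ⟨x, hx⟩ : W.gr Y 1) := by
  have h1 : W.tr Y x = 0 := hW.tr_gr hY hx (by omega)
  have h2 : W.tr Y (p * x) = 0 := hW.tr_gr hY (hW.mul_gr hY (p_gr hW hY hp) hx) (by omega)
  rw [jj_apply, h1, h2, map_zero, zero_smul, zero_smul, zero_add, add_zero, j1_same I J hx]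

include hW hY hp in
theorem jj_two {x : W.coh Y} (hx : x ∈ W.gr Y 2) :
    jj I J p x = starRingEnd ℂ (W.tr Y x) • ((W.tr Y p)⁻¹ • p) := by
  have h2 : W.tr Y (p * x) = 0 := hW.tr_gr hY (hW.mul_gr hY (p_gr hW hY hp) hx) (by omega)
  rw [jj_apply, h2, map_zero, zero_smul, zero_add, j1_ne I J (i := 2) (by omega) hx, zero_add]

include hW hY h0 hp in
theorem jj_gr (i : ℕ) {x : W.coh Y} (hx : x ∈ W.gr Y i) : jj I J p x ∈ W.gr Y i := by
  rcases Nat.lt_or_ge i 3 with h | h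
  · interval_cases i
    · obtain ⟨c, hc⟩ := gr_zero h0 hx
      rw [hc, jj_zero hW hY hp]
      exact Submodule.smul_mem _ _ (hW.one_gr hY)
    · rw [jj_one hW hY hp I J hx]
      exact (J ⟨x, hx⟩).2
    · rw [jj_two hW hY hp I J hx]
      exact Submodule.smul_mem _ _ (Submodule.smul_mem _ _ (p_gr hW hY hp))
  · rw [gr_big hW hY hx h, map_zero]
    exact zero_mem _

include hW hY h0 hp in
theorem jj_mul (hJ : ∀ x y : W.gr Y 1, W.tr Y ((J x : W.coh Y) * (J y : W.coh Y)) =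
      starRingEnd ℂ (W.tr Y ((x : W.coh Y) * (y : W.coh Y)))) (x y : W.coh Y) :
    jj I J p (x * y) = jj I J p x * jj I J p y := by
  refine hW.hom_induction hY (P := fun x => jj I J p (x * y) = jj I J p x * jj I J p y) x ?_ ?_ ?_
  · intro i x hx
    refine hW.hom_induction hY (P := fun y => jj I J p (x * y) = jj I J p x * jj I J p y) y
      ?_ ?_ ?_
    · intro l y hy
      by_cases hi : i = 0
      · subst hi
        obtain ⟨c, hc⟩ := gr_zero h0 hx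
        rw [hc, jj_zero hW hY hp, smul_mul_assoc, smul_mul_assoc, one_mul, one_mul,
          LinearMap.map_smulₛₗ]
      by_cases hl : l = 0
      · subst hl
        obtain ⟨c, hc⟩ := gr_zero h0 hy
        rw [hc, jj_zero hW hY hp, mul_smul_comm, mul_smul_comm, mul_one, mul_one,
          LinearMap.map_smulₛₗ]
      by_cases h2 : i = 1 ∧ l = 1
      · obtain ⟨rfl, rfl⟩ := h2
        have h3 : x * y ∈ W.gr Y 2 := hW.mul_gr hY hx hy
        have h4 : (J ⟨x, hx⟩ : W.coh Y) * (J ⟨y, hy⟩ : W.coh Y) ∈ W.gr Y 2 :=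
          hW.mul_gr hY (J ⟨x, hx⟩).2 (J ⟨y, hy⟩).2
        rw [jj_two hW hY hp I J h3, jj_one hW hY hp I J hx, jj_one hW hY hp I J hy,
          gr_two hW hY h0 hp h4, hJ, smul_smul, div_eq_mul_inv]
      · have h3 : jj I J p x * jj I J p y = 0 :=
          gr_big hW hY (hW.mul_gr hY (jj_gr hW hY h0 hp I J i hx) (jj_gr hW hY h0 hp I J l hy))
            (by omega)
        rw [gr_big hW hY (hW.mul_gr hY hx hy) (by omega), map_zero, h3]
    · simp
    · intro a b ha hb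
      rw [mul_add, map_add, ha, hb, map_add, mul_add]
  · simp
  · intro a b ha hb
    rw [add_mul, map_add, ha, hb, map_add, add_mul]

include hW hY hp in
theorem jj_tr (x : W.coh Y) : W.tr Y (jj I J p x) = starRingEnd ℂ (W.tr Y x) := by
  rw [jj_apply, map_add, map_add, map_smul, map_smul, map_smul, map_smul,
    hW.tr_gr hY (hW.one_gr hY) (by omega), hW.tr_gr hY (j1_mem I J x) (by omega)]
  simp only [smul_eq_mul, mul_zero, zero_add]
  rw [inv_mul_cancel₀ (tr_p_ne hp), mul_one]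

include hW hY hp in
theorem jj_p : jj I J p p = p := by
  rw [jj_two hW hY hp I J (p_gr hW hY hp), conj_p hp, smul_smul,
    mul_inv_cancel₀ (tr_p_ne hp), one_smul]

include hW hY h0 hp in
theorem exists_hr : ∃ j : W.coh Y →ₛₗ[starRingEnd ℂ] W.coh Y, HRStr W Y 1 p j := by
  have hfin : FiniteDimensional ℂ (W.coh Y) := hW.finite hY
  obtain ⟨n, b, τ, s, h⟩ := exists_adapted (o := True) (B := B W Y)
    (fun x y _ => B_alt hW hY x y) (fun x y ho => absurd trivial ho)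
    (fun x hx => B_nondeg hW hY x hx)
  have I : DirectSum.IsInternal (W.gr Y) := hW.internal hY
  have hJ : ∀ x y : W.gr Y 1, W.tr Y ((HrA.j0 b τ s x : W.coh Y) * (HrA.j0 b τ s y : W.coh Y)) =
      starRingEnd ℂ (W.tr Y ((x : W.coh Y) * (y : W.coh Y))) := by
    intro x y
    have h1 := HrA.form_conj h x y
    rw [B_apply, B_apply, map_neg, neg_inj] at h1
    exact h1
  refine ⟨jj I (HrA.j0 b τ s) p, fun x y => jj_mul hW hY h0 hp I _ hJ x y,
    fun i x hx => jj_gr hW hY h0 hp I _ i hx, jj_p hW hY hp I _,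
    fun x => jj_tr hW hY hp I _ x, ?_⟩
  intro i x hi hx hx0
  have hxg : x ∈ W.gr Y i := hx.1
  rcases Nat.le_one_iff_eq_zero_or_eq_one.1 hi with rfl | rfl
  · obtain ⟨c, hc⟩ := gr_zero h0 hxg
    obtain ⟨q, hq, htr⟩ := tr_p hp
    have hc0 : c ≠ 0 := by
      rintro rfl
      exact hx0 (by rw [hc, zero_smul])
    refine ⟨Complex.normSq c * q, mul_pos (Complex.normSq_pos.2 hc0) (by exact_mod_cast hq), ?_⟩
    change (-1) ^ (0 * (0 + 1) / 2) * W.tr Y (p ^ (1 - 0) * (x * jj I (HrA.j0 b τ s) p x)) = _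
    rw [hc, jj_zero hW hY hp, smul_mul_smul_comm, mul_one, mul_smul_comm, mul_one, map_smul,
      Nat.sub_zero, pow_one, htr, smul_eq_mul, Complex.mul_conj]
    push_cast
    norm_num
  · obtain ⟨r, hr, h1⟩ := HrA.form_pos h ⟨x, hxg⟩ fun h2 => hx0 (congrArg Subtype.val h2)
    refine ⟨r, hr, ?_⟩
    change (-1) ^ (1 * (1 + 1) / 2) * W.tr Y (p ^ (1 - 1) * (x * jj I (HrA.j0 b τ s) p x)) = _
    rw [jj_one hW hY hp I _ hxg, ← h1, B_apply]
    norm_num

end Ce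

/-- Row CE. -/
theorem ce : CEStatement := by
  intro k _ W 𝒱 hW Y p hY h0 hp
  exact ⟨Ce.hard h0 hp, Ce.lambda hW hY h0 hp, Ce.exists_hr hW hY h0 hp⟩

end Pool.Agent.Lib.MP_361a6f_ag.FL.CV
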