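import Pool.Agent.Lib.MP_361a6f_ag.FL.CV.Defs

/-!
# Row CG: change of the index set of the factors
-/

open CategoryTheory AlgebraicGeometry MonoidalCategory CartesianMonoidalCategory

universe u v w w'

set_option autoImplicit false
set_option linter.unusedSectionVars false

namespace Pool.Agent.Lib.MP_361a6f_ag.FL.CV

open Pool.Agent.Lib.MP_361a6f_ag.H3 Pool.Agent.Lib.MP_361a6f_ag.SQ
  Pool.Agent.Lib.MP_361a6f_ag.PP Pool.Agent.Lib.MP_361a6f_ag.FL.PTG

/-- the shape of a product, with one label -/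
def dn {m : ℕ} : Prd m → Prd 1
  | .leaf _ => .leaf 0
  | .prod P Q => .prod (dn P) (dn Q)

variable {k : Type u} [Field k] {m : ℕ} {W : CohomologyData.{u, 0, w} k ℂ}

/-- product, dimension and polarisation -/
noncomputable def bun (W : CohomologyData.{u, 0, w} k ℂ) {X : Fin m → Sch k} (n : Fin m → ℕ)
    (ξ : ∀ a, W.coh (X a)) (P : Prd m) : (Y : Sch k) × (W.coh Y × ℕ) :=
  ⟨P.obj X, P.pol W ξ, P.dim n⟩

/-- the product of two triples -/
noncomputable def bprod (A B : (Y : Sch k) × (W.coh Y × ℕ)) : (Y : Sch k) × (W.coh Y × ℕ) :=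
  ⟨A.1.prod B.1, W.pb (Sch.pr₁ A.1 B.1) A.2.1 + W.pb (Sch.pr₂ A.1 B.1) B.2.1, A.2.2 + B.2.2⟩

theorem bun_dn {X : Fin m → Sch k} {n : Fin m → ℕ} {ξ : ∀ a, W.coh (X a)} {o : Fin m} :
    ∀ Q : Prd m, (∀ j, Q.lw j = o) →
      bun W n ξ Q = bun W (X := fun _ : Fin 1 => X o) (fun _ => n o) (fun _ => ξ o) (dn Q)
  | .leaf a, h => by
    have ha : a = o := h ⟨0, Nat.one_pos⟩
    subst ha
    rfl
  | .prod P Q, h => by
    have h1 : ∀ j, P.lw j = o := fun j => by
      have := h (Fin.castAdd Q.size j)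
      rwa [show (Prd.prod P Q).lw = Fin.append P.lw Q.lw from rfl, Fin.append_left] at this
    have h2 : ∀ j, Q.lw j = o := fun j => by
      have := h (Fin.natAdd P.size j)
      rwa [show (Prd.prod P Q).lw = Fin.append P.lw Q.lw from rfl, Fin.append_right] at this
    have e1 := bun_dn (n := n) (ξ := ξ) P h1
    have e2 := bun_dn (n := n) (ξ := ξ) Q h2
    show bprod (bun W n ξ P) (bun W n ξ Q) = bprod (bun W (X := fun _ : Fin 1 => X o)
      (fun _ => n o) (fun _ => ξ o) (dn P)) (bun W (X := fun _ : Fin 1 => X o)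
      (fun _ => n o) (fun _ => ξ o) (dn Q))
    rw [e1, e2]

/-- **Row CG.** -/
theorem cg : CGStatement.{u, w} := by
  intro k _ m W X n ξ o h Q hQ i hi
  have h1 := h (dn Q) i hi
  have e := bun_dn (W := W) (n := n) (ξ := ξ) Q hQ
  have key : ∀ A B : (Y : Sch k) × (W.coh Y × ℕ), A = B →
      SemiCodim W B.1 B.2.2 B.2.1 i → SemiCodim W A.1 A.2.2 A.2.1 i := by
    rintro A B rfl h
    exact h
  exact key _ _ e h1

end Pool.Agent.Lib.MP_361a6f_ag.FL.CV
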