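import Pool.Agent.Lib.MP_361a6f_ag.FL.CV.Defs
import Pool.Agent.Lib.MP_361a6f_ag.FL.CM.ThmC

/-!
# Row CH: nonnegativity on the powers of `X`
-/

open CategoryTheory AlgebraicGeometry MonoidalCategory CartesianMonoidalCategory

universe u v w w'

set_option autoImplicit false

namespace Pool.Agent.Lib.MP_361a6f_ag.FL.CV

open Pool.Agent.Lib.MP_361a6f_ag.H3 Pool.Agent.Lib.MP_361a6f_ag.SQ
  Pool.Agent.Lib.MP_361a6f_ag.PP Pool.Agent.Lib.MP_361a6f_ag.FL.PTG

/-- **Row CH.** -/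
theorem ch : CHStatement.{u, v, w, w'} := by
  intro k _ W 𝒱 hW k' _ W' 𝒱' hW' D h hE P i hi
  exact semi_of_q1 hW (memP (X := fun _ => D.X) (n := fun _ => D.g) (fun _ => h.mem) P)
    (isPol_alg hW (fun _ => h.mem) (fun _ => h.div.1) (HodgeZ.isPol _ P))
    (CM.q1num hW hW' h.mem h.div h.mem' h.spec h.conn (PT0.unital_of_group h.group)
      (fun c => CM.fourRow hW hW' h hE c) P _ (HodgeZ.isPol _ P) i hi)

end Pool.Agent.Lib.MP_361a6f_ag.FL.CV
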