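import Pool.Agent.Lib.MP_361a6f_ag.FL.CV.Stat
import Pool.Agent.Lib.MP_361a6f_ag.FL.PT.Gen
import Pool.Agent.Lib.MP_361a6f_ag.FL.PT.EndP
import Pool.Agent.Lib.MP_361a6f_ag.FL.E.S.Slot

/-!
# Products of abelian varieties and curves: the rows
-/

open CategoryTheory AlgebraicGeometry MonoidalCategory CartesianMonoidalCategory

universe u v w w'

set_option autoImplicit false

namespace Pool.Agent.Lib.MP_361a6f_ag.FL.CV

open Pool.Agent.Lib.MP_361a6f_ag.H3 Pool.Agent.Lib.MP_361a6f_ag.SQ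
  Pool.Agent.Lib.MP_361a6f_ag.PP Pool.Agent.Lib.MP_361a6f_ag.FL.PTG

/-- Row CA: real combinations of correspondences preserve the real span of the members. -/
def CAStatement : Prop :=
  ∀ {I Λ : Type} [Fintype I] [DecidableEq I] [DecidableEq Λ] {D : Dat I Λ}
    {At : (L : ℕ) → Ten I L → Prop} (_ : ASys D At) {T : Matrix I I ℂ}
    (_ : T ∈ Submodule.span ℝ {M | ∃ z, At 2 z ∧ M = E.opM D z}) {L : ℕ} {u : Ten I L}
    (_ : u ∈ Submodule.span ℝ {u : Ten I L | At L u}),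
    gT T u ∈ Submodule.span ℝ {u : Ten I L | At L u}

/-- Row CB: a matrix that is isometric on each factor preserves `ψ`. -/
def CBStatement : Prop :=
  ∀ {I : Type} [Fintype I] [DecidableEq I] {m : ℕ} {D : Dat I (Fin m × ℕ)} {T : Matrix I I ℂ}
    (_ : ∀ i j, (D.typ i).1 = (D.typ j).1 → (T.transpose * Psi D * T) i j = Psi D i j)
    {L : ℕ} (lw : Fin L → Fin m) (u v : Ten I L)
    (_ : ∀ w, u w ≠ 0 → ∀ i, (D.typ (w i)).1 = lw i)
    (_ : ∀ w, v w ≠ 0 → ∀ i, (D.typ (w i)).1 = lw i),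
    psiT D (gT T u) (gT T v) = psiT D u v

/-- A real combination `T` of correspondences that embeds the cohomology of each factor
isometrically into that of the factor `o`. -/
structure Iso {k : Type u} [Field k] {m : ℕ} {W : CohomologyData.{u, 0, w} k ℂ}
    {𝒱 : VarietyClass k} (H : Host W 𝒱 m) (o : Fin m) (T : Matrix H.I H.I ℂ) : Prop where
  mem : T ∈ Submodule.span ℝ {M | ∃ z, z ∈ H.At 2 ∧ M = E.opM H.D z}
  typ : ∀ x i, T x i ≠ 0 → (H.D.typ x).1 = o ∧ (H.D.typ x).2 = (H.D.typ i).2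
  iso : ∀ i j, (H.D.typ i).1 = (H.D.typ j).1 →
    (T.transpose * Psi H.D * T) i j = Psi H.D i j

/-- the hypotheses on the factors -/
structure Fac {k : Type u} [Field k] {m : ℕ} (W : CohomologyData.{u, 0, w} k ℂ)
    (𝒱 : VarietyClass k) (X : Fin m → Sch k) (n : Fin m → ℕ) (ξ : ∀ a, W.coh (X a)) (o : Fin m) :
    Prop where
  div : ∀ a, PositiveDivisor W (X a) (n a) (ξ a)
  conn : ∀ a x, W.Deg (X a) 0 x → ∃ c, x = W.scal c 1
  pos : 0 < n o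
  one : ∀ a, a ≠ o → n a = 1
  curve : ∀ a, a ≠ o → EQ.Curve W 𝒱 (X o) (n o) (ξ o) (X a) (ξ a)

/-- Row CC1: the piece of degree one. -/
def CC1Statement : Prop :=
  ∀ {k : Type u} [Field k] {m : ℕ} {W : CohomologyData.{u, 0, w} k ℂ} {𝒱 : VarietyClass k}
    (H : Host W 𝒱 m) {o : Fin m} (_ : Fac W 𝒱 H.X H.n H.ξ o) (a : Fin m) (_ : a ≠ o),
    ∃ T : Matrix H.I H.I ℂ, T ∈ Submodule.span ℝ {M | ∃ z, z ∈ H.At 2 ∧ M = E.opM H.D z} ∧
      (∀ x i, T x i ≠ 0 → H.D.typ x = (o, 1) ∧ H.D.typ i = (a, 1)) ∧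
      ∀ i j, H.D.typ i = (a, 1) → H.D.typ j = (a, 1) →
        (T.transpose * Psi H.D * T) i j = Psi H.D i j

/-- Row CC0: the pieces of degree zero and two. -/
def CC0Statement : Prop :=
  ∀ {k : Type u} [Field k] {m : ℕ} {W : CohomologyData.{u, 0, w} k ℂ} {𝒱 : VarietyClass k}
    (H : Host W 𝒱 m) {o : Fin m} (_ : Fac W 𝒱 H.X H.n H.ξ o) (a : Fin m) (_ : a ≠ o) (d : ℕ)
    (_ : d = 0 ∨ d = 2),
    ∃ T : Matrix H.I H.I ℂ, T ∈ Submodule.span ℝ {M | ∃ z, z ∈ H.At 2 ∧ M = E.opM H.D z} ∧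
      (∀ x i, T x i ≠ 0 → H.D.typ x = (o, d) ∧ H.D.typ i = (a, d)) ∧
      ∀ i j, H.D.typ i = (a, d) → H.D.typ j = (a, d) →
        (T.transpose * Psi H.D * T) i j = Psi H.D i j

/-- Row CC: the isometry from its pieces (the identity on the factor `o`). -/
def CCStatement : Prop :=
  ∀ {k : Type u} [Field k] {m : ℕ} {W : CohomologyData.{u, 0, w} k ℂ} {𝒱 : VarietyClass k}
    (H : Host W 𝒱 m) {o : Fin m} (_ : Fac W 𝒱 H.X H.n H.ξ o),
    ∃ T : Matrix H.I H.I ℂ, Iso H o T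

/-- Row CD: nonnegativity of `ψ` on all products from that on the powers of the factor `o`. -/
def CDStatement : Prop :=
  ∀ {k : Type u} [Field k] {m : ℕ} {W : CohomologyData.{u, 0, w} k ℂ} {𝒱 : VarietyClass k}
    (H : Host W 𝒱 m) {o : Fin m} {T : Matrix H.I H.I ℂ} (_ : Iso H o T)
    (_ : ∀ Q : Prd m, (∀ j, Q.lw j = o) → ∀ i ≤ 2,
      SemiCodim W (Q.obj H.X) (Q.dim H.n) (Q.pol W H.ξ) i)
    (P : Prd m) (i : ℕ) (_ : i ≤ 2) (x : W.coh (P.obj H.X)) (_ : x ∈ tot W (P.obj H.X))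
    (_ : x ∈ W.gr (P.obj H.X) (2 * i)), ∃ r : ℝ, 0 ≤ r ∧ H.psiP P x x = (r : ℂ)

/-- Row CG: change of the index set of the factors. -/
def CGStatement : Prop :=
  ∀ {k : Type u} [Field k] {m : ℕ} {W : CohomologyData.{u, 0, w} k ℂ} {X : Fin m → Sch k}
    {n : Fin m → ℕ} {ξ : ∀ a, W.coh (X a)} {o : Fin m}
    (_ : ∀ P : Prd 1, ∀ i ≤ 2, SemiCodim W (P.obj fun _ => X o) (P.dim fun _ => n o)
      (P.pol W (X := fun _ => X o) fun _ => ξ o) i)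
    (Q : Prd m) (_ : ∀ j, Q.lw j = o) (i : ℕ) (_ : i ≤ 2),
    SemiCodim W (Q.obj X) (Q.dim n) (Q.pol W ξ) i

/-- Row CE: the Lefschetz theorems and a Hodge-Riemann structure for a curve. -/
def CEStatement : Prop :=
  ∀ {k : Type u} [Field k] {W : CohomologyData.{u, 0, w} k ℂ} {𝒱 : VarietyClass k}
    (_ : IsWeilCohomology W 𝒱) {Y : Sch k} {p : W.coh Y} (_ : 𝒱.mem Y 1)
    (_ : ∀ x, W.Deg Y 0 x → ∃ c, x = W.scal c 1) (_ : PositiveDivisor W Y 1 p),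
    HardLefschetz W Y 1 p ∧ AlgebraicLambda W Y 1 p ∧
      ∃ j : W.coh Y →ₛₗ[starRingEnd ℂ] W.coh Y, HRStr W Y 1 p j

/-- Row CF: everything generated by the algebraic classes of codimension at most two (the proof of
`PTG.gen_of_q1` for a family). -/
def CFStatement : Prop :=
  ∀ {k : Type u} [Field k] {W : CohomologyData.{u, 0, w} k ℂ} {𝒱 : VarietyClass k}
    (_ : IsWeilCohomology W 𝒱) {m : ℕ} {X : Fin m → Sch k} {n : Fin m → ℕ}
    (_ : ∀ a, 𝒱.mem (X a) (n a)) {ξ : ∀ a, W.coh (X a)}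
    (_ : ∀ a, PositiveDivisor W (X a) (n a) (ξ a))
    (_ : ∀ a, HardLefschetz W (X a) (n a) (ξ a)) (_ : ∀ a, AlgebraicLambda W (X a) (n a) (ξ a))
    (j : ∀ a, W.coh (X a) →ₛₗ[starRingEnd ℂ] W.coh (X a))
    (_ : ∀ a, HRStr W (X a) (n a) (ξ a) (j a))
    (_ : ∀ P : Prd m, ∀ i ≤ 2, SemiCodim W (P.obj X) (P.dim n) (P.pol W ξ) i)
    {P : Prd m} {η : W.coh (P.obj X)} (_ : IsPol W ξ P η) {l : ℕ} {z : W.coh (P.obj X)}
    (_ : EQ.MadeF W X n P l z) (_ : 2 * l ≤ P.dim n)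
    (_ : EQ.NumTrivial W (P.obj X) (W.cup (η ^ (P.dim n - 2 * l + 1)) z))
    (_ : ¬ EQ.NumTrivial W (P.obj X) z),
    RatPos ((-1) ^ l * W.Tr (W.cup (η ^ (P.dim n - 2 * l)) (W.cup z z)))

/-- Row CH: nonnegativity on the powers of `X`. -/
def CHStatement : Prop :=
  ∀ {k : Type u} [Field k] {W : CohomologyData.{u, 0, w} k ℂ} {𝒱 : VarietyClass k}
    (_ : IsWeilCohomology W 𝒱) {k' : Type v} [Field k'] {W' : CohomologyData.{v, 0, w'} k' ℂ}
    {𝒱' : VarietyClass k'} (_ : IsWeilCohomology W' 𝒱') {D : EQ.Data W W'} (_ : EQ.RedC 𝒱 𝒱' D)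
    (_ : EQ.Effective W' D.X' D.g (D.s (.leaf 0) D.ξ)) (P : Prd 1) (i : ℕ) (_ : i ≤ 2),
    SemiCodim W (P.obj fun _ => D.X) (P.dim fun _ => D.g) (P.pol W (X := fun _ => D.X) fun _ => D.ξ)
      i

end Pool.Agent.Lib.MP_361a6f_ag.FL.CV
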