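import Pool.Agent.Lib.MP_361a6f_ag.FL.CM.StatCM

/-!
# Products of abelian varieties and curves: what is generated by the classes of codimension at most 2
-/

open CategoryTheory AlgebraicGeometry MonoidalCategory CartesianMonoidalCategory

universe u v w w'

namespace Pool.Agent.Lib.MP_361a6f_ag.FL

open Pool.Agent.Lib.MP_361a6f_ag.H3 Pool.Agent.Lib.MP_361a6f_ag.SQ
  Pool.Agent.Lib.MP_361a6f_ag.PP

/-- `Y` is a curve with a morphism `f` to `X`, of dimension `n`, with the class `ξ`, such that for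
some rational `r > 0` the operator `r⁻¹ f^* f_*` is the identity of `H^1(Y)`, if `H^(2n-1)(X)` is
identified with `H^1(X)` by `ξ^(n-1)`. (Example: the Jacobian variety `X` of `Y` with the theta
divisor `ξ`, or the product of several Jacobian varieties and an abelian variety.) -/
structure EQ.Curve {k : Type u} [Field k] (W : CohomologyData.{u, 0, w} k ℂ) (𝒱 : VarietyClass k)
    (X : Sch k) (n : ℕ) (ξ : W.coh X) (Y : Sch k) (p : W.coh Y) : Prop where
  mem : 𝒱.mem Y 1
  conn : ∀ x, W.Deg Y 0 x → ∃ c, x = W.scal c 1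
  div : PositiveDivisor W Y 1 p
  jac : ∃ (f : Sch.Mor Y X) (r : ℚ), 0 < r ∧ ∀ v, W.Deg Y 1 v → ∃ x, W.Deg X 1 x ∧
    W.pb f x = W.scal (r : ℂ) v ∧
    ∀ z, W.Deg X 1 z → W.Tr (W.cup (ξ ^ (n - 1)) (W.cup x z)) = W.Tr (W.cup v (W.pb f z))

/-- `EQ.MadeF W X n P l z`: the class `z` of codimension `l` on the product `P` of the varieties
`X_a`, of dimension `n_a`, is made of algebraic classes of codimension at most `2` on such products,
by linear combinations with rational coefficients, cup products, and pull-backs and push-forwards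
along the morphisms that are composed of projections, permutations of the factors and diagonals. -/
inductive EQ.MadeF {k : Type u} [Field k] (W : CohomologyData.{u, 0, w} k ℂ) {m : ℕ}
    (X : Fin m → Sch k) (n : Fin m → ℕ) : (P : Prd m) → ℕ → W.coh (P.obj X) → Prop
  | alg (P : Prd m) (l : ℕ) (z : W.coh (P.obj X)) : l ≤ 2 → W.IsAlg (P.obj X) l z →
      EQ.MadeF W X n P l z
  | add (P : Prd m) (l : ℕ) (z z' : W.coh (P.obj X)) : EQ.MadeF W X n P l z →
      EQ.MadeF W X n P l z' → EQ.MadeF W X n P l (z + z')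
  | scal (P : Prd m) (l : ℕ) (q : ℚ) (z : W.coh (P.obj X)) : EQ.MadeF W X n P l z →
      EQ.MadeF W X n P l (W.scal (q : ℂ) z)
  | cup (P : Prd m) (l l' : ℕ) (z z' : W.coh (P.obj X)) : EQ.MadeF W X n P l z →
      EQ.MadeF W X n P l' z' → EQ.MadeF W X n P (l + l') (W.cup z z')
  | pb (P Q : Prd m) (f : Sch.Mor (P.obj X) (Q.obj X)) (l : ℕ) (z : W.coh (Q.obj X)) :
      CoordMor X 3 P Q f → EQ.MadeF W X n Q l z → EQ.MadeF W X n P l (W.pb f z)
  | pf (P Q : Prd m) (f : Sch.Mor (P.obj X) (Q.obj X)) (l l' : ℕ) (z : W.coh (P.obj X)) :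
      CoordMor X 3 P Q f → l + Q.dim n = l' + P.dim n →
      EQ.MadeF W X n P l z → EQ.MadeF W X n Q l' (W.pf f z)

/-- **Theorem PT for abelian varieties and curves.** `Q1` modulo numerical equivalence holds, in all
codimensions, for all classes on the products of copies of an abelian variety `X` and of curves
`Y_1, ..., Y_m` with a morphism to `X` as in `EQ.Curve` (`m = 0` is allowed) that are generated by
the algebraic classes of codimension at most `2` on these products. -/
def ThmPC : Prop :=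
  ∀ {k : Type u} [Field k] (W : CohomologyData.{u, 0, w} k ℂ) (𝒱 : VarietyClass k)
    (_ : IsWeilCohomology W 𝒱) {k' : Type v} [Field k'] (W' : CohomologyData.{v, 0, w'} k' ℂ)
    (𝒱' : VarietyClass k') (_ : IsWeilCohomology W' 𝒱') (D : EQ.Data W W') (_ : EQ.RedC 𝒱 𝒱' D)
    (_ : 0 < D.g) (_ : EQ.Effective W' D.X' D.g (D.s (.leaf 0) D.ξ))
    {m : ℕ} (Y : Fin m → Sch k) (p : ∀ a, W.coh (Y a))
    (_ : ∀ a, EQ.Curve W 𝒱 D.X D.g D.ξ (Y a) (p a))
    (P : Prd (m + 1)) (η : W.coh (P.obj (Fin.cons D.X Y)))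
    (_ : IsPol W (Fin.cons (α := fun a => W.coh (Fin.cons (α := fun _ => Sch k) D.X Y a)) D.ξ p)
      P η) (j : ℕ) (z : W.coh (P.obj (Fin.cons D.X Y)))
    (_ : EQ.MadeF W (Fin.cons D.X Y) (Fin.cons D.g fun _ => 1) P j z)
    (_ : 2 * j ≤ P.dim (Fin.cons D.g fun _ => 1))
    (_ : EQ.NumTrivial W (P.obj (Fin.cons D.X Y))
      (W.cup (η ^ (P.dim (Fin.cons D.g fun _ => 1) - 2 * j + 1)) z))
    (_ : ¬ EQ.NumTrivial W (P.obj (Fin.cons D.X Y)) z),
    RatPos ((-1) ^ j * W.Tr (W.cup (η ^ (P.dim (Fin.cons D.g fun _ => 1) - 2 * j)) (W.cup z z)))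

end Pool.Agent.Lib.MP_361a6f_ag.FL
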